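import Mathlib

set_option autoImplicit false

namespace Pool.Agent.H746UG

open Polynomial

/-- digit sum of a word: the letter `false` in position `i` contributes `x ^ i` -/
def dsm {R : Type*} [CommRing R] (x : R) : List Bool → R
  | [] => 0
  | b :: w => (if b then 0 else 1) + x * dsm x w

lemma dsm_map {R S : Type*} [CommRing R] [CommRing S] (f : R →+* S) (x : R) (w : List Bool) :
    f (dsm x w) = dsm (f x) w := by
  induction w with
  | nil => simp [dsm]
  | cons b w ih =>
    rw [dsm, dsm, map_add, map_mul, ih]
    cases b <;> simp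

lemma dsm_X_inj {k : Type*} [CommRing k] [Nontrivial k] : ∀ u v : List Bool,
    u.length = v.length → dsm (X : k[X]) u = dsm X v → u = v := by
  intro u
  induction u with
  | nil =>
    intro v hl _
    exact (List.length_eq_zero_iff.mp hl.symm).symm
  | cons a u ih =>
    intro v hl he
    cases v with
    | nil => simp at hl
    | cons b v =>
      simp only [List.length_cons, Nat.add_right_cancel_iff] at hl
      rw [dsm, dsm] at he
      have h0 := congrArg (fun p => coeff p 0) he
      have hab : a = b := by
        cases a <;> cases b <;> simp at h0 <;> rfl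
      subst hab
      have h1 := add_left_cancel he
      have h2 : dsm (X : k[X]) u = dsm X v := by
        ext n
        have := congrArg (fun p => coeff p (n + 1)) h1
        simpa [coeff_X_mul] using this
      rw [ih v hl h2]

/-- the set of the digit sums of length `n` -/
def DS {R : Type*} [CommRing R] (x : R) (n : ℕ) : Set R :=
  {y | ∃ w : List Bool, w.length = n ∧ y = dsm x w}

lemma DS_eq_range {R : Type*} [CommRing R] (x : R) (n : ℕ) :
    DS x n = Set.range (fun w : List.Vector Bool n => dsm x w.1) := by
  ext y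
  constructor
  · rintro ⟨w, hw, rfl⟩
    exact ⟨⟨w, hw⟩, rfl⟩
  · rintro ⟨w, rfl⟩
    exact ⟨w.1, w.2, rfl⟩

lemma DS_finite {R : Type*} [CommRing R] (x : R) (n : ℕ) : (DS x n).Finite := by
  rw [DS_eq_range]
  exact Set.finite_range _

lemma card_DS_le {R : Type*} [CommRing R] (x : R) (n : ℕ) : Nat.card (DS x n) ≤ 2 ^ n := by
  rw [DS_eq_range]
  have := Finite.card_range_le (fun w : List.Vector Bool n => dsm x w.1)
  simpa using this

lemma card_DS_of_inj {R : Type*} [CommRing R] (x : R) (n : ℕ)
    (h : ∀ u v : List Bool, u.length = v.length → dsm x u = dsm x v → u = v) :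
    Nat.card (DS x n) = 2 ^ n := by
  rw [DS_eq_range]
  have hinj : Function.Injective (fun w : List.Vector Bool n => dsm x w.1) := by
    intro a b hab
    exact Subtype.ext (h _ _ (a.2.trans b.2.symm) hab)
  rw [Nat.card_range_of_injective hinj]
  simp

lemma card_DS_le_of {R S : Type*} [CommRing R] [CommRing S] (x : R) (y : S) (n : ℕ)
    (h : ∀ u v : List Bool, u.length = v.length → dsm x u = dsm x v → dsm y u = dsm y v) :
    Nat.card (DS y n) ≤ Nat.card (DS x n) := by
  classical
  have hf : Finite (DS x n) := DS_finite x n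
  choose w hw1 hw2 using fun z : DS y n => z.2
  refine Nat.card_le_card_of_injective
    (fun z => (⟨dsm x (w z), w z, hw1 z, rfl⟩ : DS x n)) ?_
  intro z z' hz
  have h1 := h _ _ ((hw1 z).trans (hw1 z').symm) (congrArg Subtype.val hz)
  apply Subtype.ext
  rw [hw2 z, hw2 z', h1]

lemma two_not_root (m : ℕ) (hm : m > 0) : (2 : ℂ) ^ m ≠ 1 := by
  intro h
  have h1 : ((2 ^ m : ℕ) : ℂ) = ((1 : ℕ) : ℂ) := by push_cast; exact h
  have h2 : (2 : ℕ) ^ m = 1 := by exact_mod_cast h1
  have h3 : 1 < 2 ^ m := Nat.one_lt_two_pow hm.ne'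
  omega

/-- transfer of digit sums to the complex numbers -/
theorem transfer {R : Type*} [CommRing R] [IsDomain R] (x : R) (hx0 : x ≠ 0)
    (hx : ∀ m > 0, x ^ m ≠ 1) :
    ∃ μ : ℂ, μ ≠ 0 ∧ (∀ m > 0, μ ^ m ≠ 1) ∧ ∀ n, Nat.card (DS μ n) ≤ Nat.card (DS x n) := by
  classical
  by_cases hinj : ∀ u v : List Bool, u.length = v.length → dsm x u = dsm x v → u = v
  · refine ⟨2, two_ne_zero, two_not_root, fun n => ?_⟩
    rw [card_DS_of_inj x n hinj]
    exact card_DS_le _ _
  · push Not at hinj
    obtain ⟨u, v, hl, he, hne⟩ := hinj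
    let K := FractionRing R
    let y : K := algebraMap R K x
    have hinjK : Function.Injective (algebraMap R K) := IsFractionRing.injective R K
    have hy0 : y ≠ 0 := by
      intro h
      exact hx0 (hinjK (h.trans (map_zero _).symm))
    have hy : ∀ m > 0, y ^ m ≠ 1 := by
      intro m hm h
      apply hx m hm
      apply hinjK
      rw [map_pow, map_one]; exact h
    have hey : dsm y u = dsm y v := by
      show dsm (algebraMap R K x) u = dsm (algebraMap R K x) v
      rw [← dsm_map, ← dsm_map, he]
    have hxy : ∀ u v : List Bool, dsm x u = dsm x v → dsm y u = dsm y v := by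
      intro u v h
      show dsm (algebraMap R K x) u = dsm (algebraMap R K x) v
      rw [← dsm_map, ← dsm_map, h]
    -- a relation over any subfield
    have hrel : ∀ (F : Type) [Field F] [Algebra F K], IsIntegral F y := by
      intro F _ _
      rw [← isAlgebraic_iff_isIntegral]
      refine ⟨dsm X u - dsm X v, ?_, ?_⟩
      · intro h
        exact hne (dsm_X_inj u v hl (sub_eq_zero.mp h))
      · rw [map_sub]
        have h1 : ∀ w, (aeval y) (dsm (X : F[X]) w) = dsm y w := by
          intro w
          have := dsm_map ((aeval y : F[X] →ₐ[F] K) : F[X] →+* K) X w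
          simpa using this
        rw [h1, h1, hey, sub_self]
    obtain ⟨p, hp⟩ := CharP.exists K
    rcases CharP.char_is_prime_or_zero K p with hpp | hp0
    · exfalso
      have : Fact p.Prime := ⟨hpp⟩
      let _ : Algebra (ZMod p) K := ZMod.algebra K p
      have h1 := hrel (ZMod p)
      have h2 : FiniteDimensional (ZMod p) (IntermediateField.adjoin (ZMod p) {y}) :=
        IntermediateField.finiteDimensional_adjoin (by
          intro z hz
          rw [Set.mem_singleton_iff.mp hz]; exact h1)
      have h3 : Finite (IntermediateField.adjoin (ZMod p) {y}) := Module.finite_of_finite (ZMod p)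
      let z : IntermediateField.adjoin (ZMod p) {y} :=
        ⟨y, IntermediateField.mem_adjoin_simple_self (ZMod p) y⟩
      have hz0 : z ≠ 0 := by
        intro h
        exact hy0 (congrArg Subtype.val h)
      let zu : (IntermediateField.adjoin (ZMod p) {y})ˣ := Units.mk0 z hz0
      have h4 : IsOfFinOrder zu := isOfFinOrder_of_finite zu
      obtain ⟨m, hm, h5⟩ := isOfFinOrder_iff_pow_eq_one.mp h4
      apply hy m hm
      have h6 : z ^ m = 1 := by
        have := congrArg Units.val h5
        simpa [zu] using this
      have := congrArg Subtype.val h6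
      simpa [z] using this
    · subst hp0
      have : CharZero K := CharP.charP_to_charZero K
      have h1 : IsIntegral ℚ y := hrel ℚ
      have hirr := minpoly.irreducible h1
      obtain ⟨μ, hμ⟩ := IsAlgClosed.exists_aeval_eq_zero ℂ (minpoly ℚ y)
        (minpoly.degree_pos h1).ne'
      have hmin : minpoly ℚ y = minpoly ℚ μ :=
        minpoly.eq_of_irreducible_of_monic hirr hμ (minpoly.monic h1)
      have hiff : ∀ P : ℚ[X], aeval y P = 0 ↔ aeval μ P = 0 := by
        intro P
        rw [← minpoly.dvd_iff, ← minpoly.dvd_iff, hmin]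
      refine ⟨μ, ?_, ?_, ?_⟩
      · rintro rfl
        have := (hiff X).mpr (by simp)
        rw [aeval_X] at this
        exact hy0 this
      · intro m hm h
        apply hy m hm
        have h2 := (hiff (X ^ m - 1)).mpr (by simp [h])
        simp only [map_sub, map_pow, aeval_X, map_one] at h2
        exact sub_eq_zero.mp h2
      · intro n
        apply card_DS_le_of
        intro u v _ huv
        have h2 : ∀ (L : Type _) [Field L] [Algebra ℚ L] (z : L) (w : List Bool),
            (aeval z) (dsm (X : ℚ[X]) w) = dsm z w := by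
          intro L _ _ z w
          have := dsm_map ((aeval z : ℚ[X] →ₐ[ℚ] L) : ℚ[X] →+* L) X w
          simpa using this
        have h3 := (hiff (dsm X u - dsm X v)).mp (by
          rw [map_sub, h2, h2, hxy u v huv, sub_self])
        rw [map_sub] at h3
        have h4 : (aeval μ) (dsm (X : ℚ[X]) u) = (aeval μ) (dsm (X : ℚ[X]) v) :=
          sub_eq_zero.mp h3
        have h5 : ∀ w : List Bool, (aeval μ) (dsm (X : ℚ[X]) w) = dsm μ w := by
          intro w
          have := dsm_map ((aeval μ : ℚ[X] →ₐ[ℚ] ℂ) : ℚ[X] →+* ℂ) X w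
          simpa using this
        rw [h5, h5] at h4
        exact h4

theorem transfer_quot {R : Type*} [CommRing R] (P : Ideal R) (hP : P.IsPrime) (q q' : R)
    (hqq : q * q' = 1) (hm : ∀ m > 0, q ^ m - 1 ∉ P) :
    ∃ μ : ℂ, μ ≠ 0 ∧ (∀ m > 0, μ ^ m ≠ 1) ∧
      ∀ n, Nat.card (DS μ n) ≤ Nat.card (DS (Ideal.Quotient.mk P q) n) := by
  have hdom : IsDomain (R ⧸ P) := Ideal.Quotient.isDomain P
  refine transfer (Ideal.Quotient.mk P q) ?_ ?_
  · intro h
    have h1 : Ideal.Quotient.mk P q * Ideal.Quotient.mk P q' = 1 := by
      rw [← map_mul, hqq, map_one]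
    rw [h, zero_mul] at h1
    exact zero_ne_one h1
  · intro m hm' h
    apply hm m hm'
    rw [← Ideal.Quotient.eq_zero_iff_mem, map_sub, map_pow, map_one, h, sub_self]

lemma mk_dsm {R : Type*} [CommRing R] (P : Ideal R) (q : R) (u v : List Bool)
    (h : dsm q u - dsm q v ∈ P) :
    dsm (Ideal.Quotient.mk P q) u = dsm (Ideal.Quotient.mk P q) v := by
  rw [← Ideal.Quotient.eq_zero_iff_mem, map_sub, sub_eq_zero, dsm_map, dsm_map] at h
  exact h

end Pool.Agent.H746UG
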