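import Pool.Agent.H746UG.Words
import Pool.Agent.H746UG.Alg

set_option autoImplicit false

namespace Pool.Agent.H746UG

open Subgroup
open scoped commutatorElement Pointwise

variable (q : ℂ) (hq : q ≠ 0)

/-- the map `z ↦ q z` -/
noncomputable def affA : Equiv.Perm ℂ := Equiv.mulLeft₀ q hq

/-- the map `z ↦ q z + 1` -/
noncomputable def affB : Equiv.Perm ℂ := (Equiv.mulLeft₀ q hq).trans (Equiv.addRight 1)

lemma affA_apply (z : ℂ) : affA q hq z = q * z := rfl

lemma affB_apply (z : ℂ) : affB q hq z = q * z + 1 := rfl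

lemma perm_apply_inv (f : Equiv.Perm ℂ) (z : ℂ) : f (f⁻¹ z) = z := f.apply_symm_apply z

/-- the group generated by the two maps -/
abbrev AG : Subgroup (Equiv.Perm ℂ) := Subgroup.closure {affA q hq, affB q hq}

/-- the two generators -/
def AS : Set (AG q hq) := Subtype.val ⁻¹' {affA q hq, affB q hq}

lemma AS_finite : (AS q hq).Finite :=
  (Set.toFinite {affA q hq, affB q hq}).preimage Subtype.val_injective.injOn

lemma AS_gen : Subgroup.closure (AS q hq) = ⊤ := Subgroup.closure_closure_coe_preimage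

lemma AS_cases {x : AG q hq} (hx : x ∈ AS q hq) :
    (x : Equiv.Perm ℂ) = affA q hq ∨ (x : Equiv.Perm ℂ) = affB q hq := hx

lemma aff_form (g : AG q hq) : ∃ α β : ℂ, α ≠ 0 ∧ ∀ z, (g : Equiv.Perm ℂ) z = α * z + β := by
  obtain ⟨g, hg⟩ := g
  show ∃ α β : ℂ, α ≠ 0 ∧ ∀ z, g z = α * z + β
  induction hg using Subgroup.closure_induction with
  | mem x hx =>
    rcases hx with rfl | rfl
    · exact ⟨q, 0, hq, fun z => by rw [affA_apply, add_zero]⟩
    · exact ⟨q, 1, hq, fun z => affB_apply q hq z⟩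
  | one => exact ⟨1, 0, one_ne_zero, fun z => by simp⟩
  | mul x y _ _ hx hy =>
    obtain ⟨α, β, hα, h1⟩ := hx
    obtain ⟨γ, δ, hγ, h2⟩ := hy
    refine ⟨α * γ, α * δ + β, mul_ne_zero hα hγ, fun z => ?_⟩
    rw [Equiv.Perm.mul_apply, h2, h1]; ring
  | inv x _ hx =>
    obtain ⟨α, β, hα, h1⟩ := hx
    refine ⟨α⁻¹, -α⁻¹ * β, inv_ne_zero hα, fun z => ?_⟩
    rw [Equiv.Perm.inv_eq_iff_eq, h1]
    field_simp
    ring

/-- the translations -/
def AT : Subgroup (AG q hq) where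
  carrier := {g | ∃ β : ℂ, ∀ z, (g : Equiv.Perm ℂ) z = z + β}
  mul_mem' := by
    rintro g h ⟨β, hβ⟩ ⟨γ, hγ⟩
    refine ⟨γ + β, fun z => ?_⟩
    rw [Subgroup.coe_mul, Equiv.Perm.mul_apply, hγ, hβ]; ring
  one_mem' := ⟨0, fun z => by simp⟩
  inv_mem' := by
    rintro g ⟨β, hβ⟩
    refine ⟨-β, fun z => ?_⟩
    rw [Subgroup.coe_inv, Equiv.Perm.inv_eq_iff_eq, hβ]; ring

lemma comm_le_AT : commutator (AG q hq) ≤ AT q hq := by
  rw [commutator_def, Subgroup.commutator_le]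
  intro g _ h _
  obtain ⟨α, β, hα, h1⟩ := aff_form q hq g
  obtain ⟨γ, δ, hγ, h2⟩ := aff_form q hq h
  refine ⟨α * δ + β - γ * β - δ, fun z => ?_⟩
  set y := (g : Equiv.Perm ℂ)⁻¹ ((h : Equiv.Perm ℂ)⁻¹ z) with hy
  have h3 : (h : Equiv.Perm ℂ) ((g : Equiv.Perm ℂ) y) = z := by
    rw [hy, perm_apply_inv, perm_apply_inv]
  have h4 : ((⁅g, h⁆ : AG q hq) : Equiv.Perm ℂ) z = (g : Equiv.Perm ℂ) ((h : Equiv.Perm ℂ) y) := by
    rw [commutatorElement_def]
    simp only [Subgroup.coe_mul, Subgroup.coe_inv, Equiv.Perm.mul_apply]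
    rfl
  rw [h4, h2, h1]
  rw [h1, h2] at h3
  rw [← h3]; ring

lemma aff_metabelian : derivedSeries (AG q hq) 2 = ⊥ := by
  rw [derivedSeries_succ, derivedSeries_one, eq_bot_iff, Subgroup.commutator_le]
  intro g hg h hh
  obtain ⟨β, hβ⟩ := comm_le_AT q hq hg
  obtain ⟨γ, hγ⟩ := comm_le_AT q hq hh
  rw [mem_bot, commutatorElement_eq_one_iff_mul_comm]
  apply Subtype.ext
  apply Equiv.ext
  intro z
  rw [Subgroup.coe_mul, Subgroup.coe_mul, Equiv.Perm.mul_apply, Equiv.Perm.mul_apply, hβ, hγ, hβ,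
    hγ]
  ring

lemma aff_not_vn (hroot : ∀ m > 0, q ^ m ≠ 1) : ¬ Group.IsVirtuallyNilpotent (AG q hq) := by
  rintro ⟨H, hH, hfi⟩
  let a : AG q hq := ⟨affA q hq, Subgroup.subset_closure (Or.inl rfl)⟩
  let b : AG q hq := ⟨affB q hq, Subgroup.subset_closure (Or.inr rfl)⟩
  let t : AG q hq := b * a⁻¹
  have ht : ∀ z, (t : Equiv.Perm ℂ) z = z + 1 := by
    intro z
    show affB q hq ((affA q hq)⁻¹ z) = z + 1
    have h1 : q * ((affA q hq)⁻¹ z) = z := by
      rw [← affA_apply q hq, perm_apply_inv]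
    rw [affB_apply, h1]
  obtain ⟨m, hm, _, ham⟩ := Subgroup.exists_pow_mem_of_index_ne_zero hfi.index_ne_zero a
  obtain ⟨m', hm', _, htm⟩ := Subgroup.exists_pow_mem_of_index_ne_zero hfi.index_ne_zero t
  have hapow : ∀ (n : ℕ) z, ((a ^ n : AG q hq) : Equiv.Perm ℂ) z = q ^ n * z := by
    intro n
    induction n with
    | zero => intro z; simp
    | succ n ih =>
      intro z
      rw [pow_succ, Subgroup.coe_mul, Equiv.Perm.mul_apply, ih]
      show q ^ n * (affA q hq z) = _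
      rw [affA_apply]; ring
  have htpow : ∀ (n : ℕ) z, ((t ^ n : AG q hq) : Equiv.Perm ℂ) z = z + n := by
    intro n
    induction n with
    | zero => intro z; simp
    | succ n ih =>
      intro z
      rw [pow_succ, Subgroup.coe_mul, Equiv.Perm.mul_apply, ih, ht]
      push_cast; ring
  rw [Subgroup.nilpotent_iff_finite_descending_central_series] at hH
  obtain ⟨n, D, ⟨hD0, hDs⟩, hDn⟩ := hH
  let c : H := ⟨a ^ m, ham⟩
  have key : ∀ j : ℕ, ∃ x : H, x ∈ D j ∧ ∃ τ : ℂ, τ ≠ 0 ∧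
      ∀ z, ((x : AG q hq) : Equiv.Perm ℂ) z = z + τ := by
    intro j
    induction j with
    | zero =>
      refine ⟨⟨t ^ m', htm⟩, by rw [hD0]; exact mem_top _, m', ?_, htpow m'⟩
      exact_mod_cast (show 0 < m' by omega).ne'
    | succ j ih =>
      obtain ⟨x, hx, τ, hτ, hxz⟩ := ih
      refine ⟨⁅x, c⁆, hDs x j hx c, (1 - q ^ m) * τ, ?_, ?_⟩
      · apply mul_ne_zero _ hτ
        intro h
        exact hroot m (by omega) (sub_eq_zero.mp h).symm
      · intro z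
        set y := ((a ^ m : AG q hq) : Equiv.Perm ℂ)⁻¹ z with hy
        have h1 : q ^ m * y = z := by
          rw [← hapow m y, hy, perm_apply_inv]
        have h2 : ∀ z, (((x : AG q hq) : Equiv.Perm ℂ))⁻¹ z = z - τ := by
          intro z
          rw [Equiv.Perm.inv_eq_iff_eq, hxz]; ring
        have h3 : ((⁅x, c⁆ : H) : AG q hq) = (x : AG q hq) * a ^ m * (x : AG q hq)⁻¹ * (a ^ m)⁻¹ := by
          rw [commutatorElement_def]; rfl
        rw [h3]
        show ((x : AG q hq) : Equiv.Perm ℂ) (((a ^ m : AG q hq) : Equiv.Perm ℂ)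
          ((((x : AG q hq) : Equiv.Perm ℂ))⁻¹ y)) = _
        rw [h2, hapow, hxz, mul_sub, h1]; ring
  obtain ⟨x, hx, τ, hτ, hxz⟩ := key n
  rw [hDn, mem_bot] at hx
  have h1 := hxz 0
  rw [hx] at h1
  simp at h1
  exact hτ h1.symm

lemma aff_pow (n : ℕ) (x : AG q hq) (hx : x ∈ AS q hq ^ n) :
    ∃ w : List Bool, w.length = n ∧ ∀ z, (x : Equiv.Perm ℂ) z = q ^ n * z + dsm q w := by
  induction n generalizing x with
  | zero =>
    rw [pow_zero, Set.mem_one] at hx
    refine ⟨[], rfl, fun z => ?_⟩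
    rw [hx]; simp [dsm]
  | succ n ih =>
    rw [pow_succ'] at hx
    obtain ⟨s, hs, y, hy, rfl⟩ := Set.mem_mul.mp hx
    obtain ⟨w, hw, hyz⟩ := ih y hy
    rcases AS_cases q hq hs with h | h
    · refine ⟨true :: w, by simp [hw], fun z => ?_⟩
      rw [Subgroup.coe_mul, Equiv.Perm.mul_apply, hyz, h, affA_apply]
      simp only [dsm, if_true]; ring
    · refine ⟨false :: w, by simp [hw], fun z => ?_⟩
      rw [Subgroup.coe_mul, Equiv.Perm.mul_apply, hyz, h, affB_apply]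
      simp only [dsm, Bool.false_eq_true, if_false]; ring

lemma aff_pow' (w : List Bool) :
    ∃ x ∈ AS q hq ^ w.length, ∀ z, (x : Equiv.Perm ℂ) z = q ^ w.length * z + dsm q w := by
  induction w with
  | nil => exact ⟨1, by simp, fun z => by simp [dsm]⟩
  | cons b w ih =>
    obtain ⟨y, hy, hyz⟩ := ih
    rw [List.length_cons, pow_succ']
    cases b
    · have hb : (⟨affB q hq, Subgroup.subset_closure (Or.inr rfl)⟩ : AG q hq) ∈ AS q hq :=
        Or.inr rfl
      refine ⟨⟨affB q hq, Subgroup.subset_closure (Or.inr rfl)⟩ * y,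
        Set.mul_mem_mul hb hy, fun z => ?_⟩
      rw [Subgroup.coe_mul, Equiv.Perm.mul_apply, hyz, affB_apply]
      simp only [dsm, Bool.false_eq_true, if_false]; ring
    · have ha : (⟨affA q hq, Subgroup.subset_closure (Or.inl rfl)⟩ : AG q hq) ∈ AS q hq :=
        Or.inl rfl
      refine ⟨⟨affA q hq, Subgroup.subset_closure (Or.inl rfl)⟩ * y,
        Set.mul_mem_mul ha hy, fun z => ?_⟩
      rw [Subgroup.coe_mul, Equiv.Perm.mul_apply, hyz, affA_apply]
      simp only [dsm, if_true]; ring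

lemma aff_card (n : ℕ) : Nat.card ↥(AS q hq ^ n) = Nat.card (DS q n) := by
  let f : ↥(AS q hq ^ n) → DS q n := fun x =>
    ⟨((x : AG q hq) : Equiv.Perm ℂ) 0, by
      obtain ⟨w, hw, h⟩ := aff_pow q hq n x x.2
      exact ⟨w, hw, by rw [h]; ring⟩⟩
  refine Nat.card_congr (Equiv.ofBijective f ⟨?_, ?_⟩)
  · intro x y hxy
    have h0 : ((x : AG q hq) : Equiv.Perm ℂ) 0 = ((y : AG q hq) : Equiv.Perm ℂ) 0 :=
      congrArg Subtype.val hxy
    obtain ⟨w, hw, h⟩ := aff_pow q hq n x x.2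
    obtain ⟨w', hw', h'⟩ := aff_pow q hq n y y.2
    rw [h, h'] at h0
    simp only [mul_zero, zero_add] at h0
    apply Subtype.ext
    apply Subtype.ext
    apply Equiv.ext
    intro z
    rw [h, h', h0]
  · rintro ⟨_, w, hw, rfl⟩
    obtain ⟨x, hx, h⟩ := aff_pow' q hq w
    rw [hw] at hx
    refine ⟨⟨x, hx⟩, Subtype.ext ?_⟩
    show (x : Equiv.Perm ℂ) 0 = dsm q w
    rw [h]; ring

end Pool.Agent.H746UG
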