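import Pool.Agent.H746UG.Words

set_option autoImplicit false
set_option linter.unusedSectionVars false

namespace Pool.Agent.H746UG

open Subgroup
open scoped IsMulCommutative

variable {G : Type*} [Group G] (N : Subgroup G) [N.Normal] [hN : IsMulCommutative N]

/-- the action of `G` by conjugation on the abelian normal subgroup `N`, written additively -/
noncomputable def th : G →* Module.End ℤ (Additive N) where
  toFun g := (MonoidHom.toAdditive (MulAut.conjNormal g : N ≃* N).toMonoidHom).toIntLinearMap
  map_one' := by
    ext a
    simp
  map_mul' g h := by
    ext a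
    simp

/-- the group element underlying an element of `Additive N` -/
def val (a : Additive N) : G := ((Additive.toMul a : N) : G)

/-- the element of `Additive N` given by an element of `N` -/
def el (x : G) (hx : x ∈ N) : Additive N := Additive.ofMul ⟨x, hx⟩

variable {N}

lemma val_mem (a : Additive N) : val N a ∈ N := (Additive.toMul a).2

lemma val_inj {a b : Additive N} (h : val N a = val N b) : a = b := by
  have : Additive.toMul a = Additive.toMul b := Subtype.ext h
  exact Additive.toMul.injective this

lemma val_add (a b : Additive N) : val N (a + b) = val N a * val N b := rfl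

lemma val_zero : val N (0 : Additive N) = 1 := rfl

lemma val_neg (a : Additive N) : val N (-a) = (val N a)⁻¹ := rfl

lemma val_sub (a b : Additive N) : val N (a - b) = val N a * (val N b)⁻¹ := by
  rw [sub_eq_add_neg, val_add, val_neg]

lemma val_el (x : G) (hx : x ∈ N) : val N (el N x hx) = x := rfl

lemma val_th (g : G) (a : Additive N) : val N (th N g a) = g * val N a * g⁻¹ := by
  simp [th, val]

lemma el_val (a : Additive N) : el N (val N a) (val_mem a) = a := rfl

lemma comm_of_mem {x y : G} (hx : x ∈ N) (hy : y ∈ N) : x * y = y * x := by
  have := hN.is_comm.comm (⟨x, hx⟩ : N) ⟨y, hy⟩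
  exact congrArg Subtype.val this

lemma th_of_mem {g : G} (hg : g ∈ N) : th N g = 1 := by
  apply LinearMap.ext
  intro a
  apply val_inj
  rw [val_th, comm_of_mem hg (val_mem a)]
  show val N a * g * g⁻¹ = val N a
  group

lemma th_inv_apply (g : G) (a : Additive N) : th N g⁻¹ (th N g a) = a := by
  rw [← Module.End.mul_apply, ← map_mul, inv_mul_cancel, map_one]; rfl

lemma th_apply_inv (g : G) (a : Additive N) : th N g (th N g⁻¹ a) = a := by
  rw [← Module.End.mul_apply, ← map_mul, mul_inv_cancel, map_one]; rfl

lemma th_mul_apply (g h : G) (a : Additive N) : th N (g * h) a = th N g (th N h a) := by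
  rw [map_mul]; rfl

end Pool.Agent.H746UG
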