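import Pool.Agent.H746UG.Stab

set_option autoImplicit false
set_option linter.unusedSectionVars false

namespace Pool.Agent.H746UG

open Subgroup
open scoped IsMulCommutative commutatorElement

variable {G : Type*} [Group G] {N : Subgroup G} [N.Normal] [hN : IsMulCommutative N]

lemma not_free {X Y : G} (h : ¬ FreePair X Y) :
    ∃ u v : List Bool, u.length = v.length ∧ u ≠ v ∧ ev X Y u = ev X Y v := by
  by_contra hcon
  apply h
  apply freePair_of_eq_length
  intro u v hl he
  by_contra hne
  exact hcon ⟨u, v, hl, hne, he⟩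

section

variable {R : Type*} [CommRing R] [IsDomain R] [Module R (Additive N)]
  [Module.IsTorsionFree R (Additive N)]

lemma th_pow_apply (g : G) (P : Additive N → Prop) (h : ∀ a, P a → P (th N g a)) (k : ℕ) :
    ∀ a, P a → P (th N (g ^ k) a) := by
  induction k with
  | zero => intro a ha; simpa using ha
  | succ k ih =>
    intro a ha
    rw [pow_succ', th_mul_apply]
    exact h _ (ih a ha)

lemma integral_of_stab (m : ℕ) (lam : G →* R)
    (hlam : ∀ g (a : Additive N), lam g • a = th N (g ^ m) a)
    (H : Submodule ℤ (Additive N)) (hH : H.FG) (hne : H ≠ ⊥) (g : G)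
    (hs : ∀ a ∈ H, th N g a ∈ H) : IsIntegral ℤ (lam g) := by
  refine isIntegral_of_smul_mem_submodule H hne hH (lam g) ?_
  intro a ha
  rw [hlam]
  exact th_pow_apply g (fun a => a ∈ H) hs m a ha

lemma integral_of_not_free (hfin : (th N '' (commutator G : Set G)).Finite)
    (m : ℕ) (lam : G →* R)
    (hlam : ∀ g (a : Additive N), lam g • a = th N (g ^ m) a)
    (hcm : ∀ g x : G, g * x ^ m * g⁻¹ * (x ^ m)⁻¹ ∈ N)
    (X Y : G) (hXY : X⁻¹ * Y ∈ commutator G) (hnf : ¬ FreePair X Y)
    (hη : Y * X ^ m * Y⁻¹ * (X ^ m)⁻¹ ≠ 1) :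
    IsIntegral ℤ (lam X) ∧ IsIntegral ℤ (lam X⁻¹) := by
  obtain ⟨u, v, hl, hne, he⟩ := not_free hnf
  have hXY1 : X ≠ Y := by
    rintro rfl
    apply hη
    group
  have hη0 : Phi (X ^ m) (fun g => hcm g X) Y ≠ 0 := by
    intro h
    apply hη
    exact congrArg (val N) h
  have hbot : ∀ k, 0 < k → HH X (Phi (X ^ m) (fun g => hcm g X) Y) k ≠ ⊥ := by
    intro k hk h
    have := eta_mem X Y m (fun g => hcm g X) k hk
    rw [h] at this
    exact hη0 ((Submodule.mem_bot ℤ).mp this)
  have hfg : ∀ k, (HH X (Phi (X ^ m) (fun g => hcm g X) Y) k).FG := fun k =>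
    Submodule.fg_span (TT_finite hfin _ _ _)
  constructor
  · obtain ⟨u', v', hl', he'⟩ := last_diff X Y u.length u v rfl hl.symm hne he
    have hpos : 0 < u'.length := by
      rcases Nat.eq_zero_or_pos u'.length with h0 | h0
      · have h1 := List.length_eq_zero_iff.mp h0
        have h2 := List.length_eq_zero_iff.mp (hl' ▸ h0)
        subst h1; subst h2
        simp [ev] at he'
        exact absurd he' hXY1
      · exact h0
    exact integral_of_stab m lam hlam _ (hfg _) (hbot _ hpos) X
      (stab_last X Y m (fun g => hcm g X) hXY u' v' hl' he')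
  · obtain ⟨u', v', hl', he'⟩ := first_diff X Y u v hl hne he
    have hpos : 0 < u'.length := by
      rcases Nat.eq_zero_or_pos u'.length with h0 | h0
      · have h1 := List.length_eq_zero_iff.mp h0
        have h2 := List.length_eq_zero_iff.mp (hl' ▸ h0)
        subst h1; subst h2
        simp [ev] at he'
        exact absurd he' hXY1
      · exact h0
    exact integral_of_stab m lam hlam _ (hfg _) (hbot _ hpos) X⁻¹
      (stab_first X Y m (fun g => hcm g X) hXY u' v' hl' he')

/-- the elements acting by integral units -/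
def UU (lam : G →* R) : Subgroup G where
  carrier := {g | IsIntegral ℤ (lam g) ∧ IsIntegral ℤ (lam g⁻¹)}
  mul_mem' := by
    rintro a b ⟨ha, ha'⟩ ⟨hb, hb'⟩
    refine ⟨?_, ?_⟩
    · rw [map_mul]; exact ha.mul hb
    · rw [mul_inv_rev, map_mul]; exact hb'.mul ha'
  one_mem' := by
    refine ⟨?_, ?_⟩
    · rw [map_one]; exact isIntegral_one
    · rw [inv_one, map_one]; exact isIntegral_one
  inv_mem' := by
    rintro a ⟨ha, ha'⟩
    exact ⟨ha', by rwa [inv_inv]⟩

theorem core [Nontrivial (Additive N)] (S : Set G) (hgen : Subgroup.closure S = ⊤)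
    (hfin : (th N '' (commutator G : Set G)).Finite)
    (m : ℕ) (lam : G →* R)
    (hlam : ∀ g (a : Additive N), lam g • a = th N (g ^ m) a)
    (hcm : ∀ g x : G, g * x ^ m * g⁻¹ * (x ^ m)⁻¹ ∈ N)
    (hint : ∃ g, ¬ IsIntegral ℤ (lam g)) :
    ∃ s ∈ S, ∃ t ∈ S, FreePair (s * t) (t * s) ∨ FreePair (s * s * t) (s * t * s) := by
  classical
  by_contra hcon
  push Not at hcon
  have hcon' : ∀ s ∈ S, ∀ t ∈ S, ¬ FreePair (s * t) (t * s) ∧
      ¬ FreePair (s * s * t) (s * t * s) := hcon
  -- trivial action
  have htriv : ∀ g, (∀ a : Additive N, lam g • a = a) → lam g = 1 := by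
    intro g hg
    obtain ⟨a, ha⟩ := exists_ne (0 : Additive N)
    have h1 : (lam g - 1) • a = 0 := by rw [sub_smul, hg, one_smul, sub_self]
    rcases smul_eq_zero.mp h1 with h2 | h2
    · exact sub_eq_zero.mp h2
    · exact absurd h2 ha
  -- a generator outside `UU`
  have hs : ∃ s ∈ S, s ∉ UU lam := by
    by_contra h
    push Not at h
    have : (⊤ : Subgroup G) ≤ UU lam := by
      rw [← hgen]; exact (Subgroup.closure_le _).mpr h
    obtain ⟨g, hg⟩ := hint
    exact hg (this (mem_top g)).1
  obtain ⟨s, hsS, hsU⟩ := hs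
  have hs1 : lam s ≠ 1 := by
    intro h
    apply hsU
    refine ⟨by rw [h]; exact isIntegral_one, ?_⟩
    have : lam s⁻¹ = 1 := by
      have h2 : lam s * lam s⁻¹ = 1 := by rw [← map_mul]; simp
      rwa [h, one_mul] at h2
    rw [this]; exact isIntegral_one
  -- a generator not commuting with `s ^ m`
  have ht : ∃ t ∈ S, t * s ^ m ≠ s ^ m * t := by
    by_contra h
    push Not at h
    apply hs1
    apply htriv
    intro a
    rw [hlam]
    have hc : (⊤ : Subgroup G) ≤ Subgroup.centralizer {s ^ m} := by
      rw [← hgen, Subgroup.closure_le]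
      intro t ht
      rw [SetLike.mem_coe, Subgroup.mem_centralizer_singleton_iff]
      exact h t ht
    apply val_inj
    rw [val_th]
    have := Subgroup.mem_centralizer_singleton_iff.mp (hc (mem_top (val N a)))
    rw [← this]; group
  obtain ⟨t, htS, htne⟩ := ht
  -- the main computation, for `X ∉ UU`, `Y = s⁻¹ X s`
  have main : ∀ X : G, X ∉ UU lam → ¬ FreePair X (s⁻¹ * X * s) →
      (∀ z : G, z * X = X * z → z * s = s * z → z * t = t * z) → False := by
    intro X hX hnf hgenst
    set Y := s⁻¹ * X * s with hY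
    have hlY : lam Y = lam X := by
      rw [hY, map_mul, map_mul, mul_comm, ← mul_assoc, ← map_mul, mul_inv_cancel, map_one,
        one_mul]
    have hX1 : lam X ≠ 1 := by
      intro h
      apply hX
      refine ⟨by rw [h]; exact isIntegral_one, ?_⟩
      have : lam X⁻¹ = 1 := by
        have h2 : lam X * lam X⁻¹ = 1 := by rw [← map_mul]; simp
        rwa [h, one_mul] at h2
      rw [this]; exact isIntegral_one
    have hXY : X⁻¹ * Y ∈ commutator G := by
      have : X⁻¹ * Y = ⁅X⁻¹, s⁻¹⁆ := by rw [hY, commutatorElement_def]; group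
      rw [this]
      exact Subgroup.commutator_mem_commutator (mem_top _) (mem_top _)
    have hη : Y * X ^ m * Y⁻¹ * (X ^ m)⁻¹ = 1 := by
      by_contra hη
      have := integral_of_not_free hfin m lam hlam hcm X Y hXY hnf hη
      exact hX this
    have hYX : Y * X ^ m = X ^ m * Y := by
      have := mul_inv_eq_one.mp hη
      rw [mul_inv_eq_iff_eq_mul] at this
      exact this
    have hYm : Y ^ m = s⁻¹ * X ^ m * s := by
      rw [hY]
      have := conj_pow (i := m) (a := s⁻¹) (b := X)
      rw [inv_inv] at this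
      exact this
    -- `α = Y^m X^{-m}`
    have hα : Y ^ m * (X ^ m)⁻¹ ∈ N := by
      rw [hYm]
      have := hcm s⁻¹ X
      rwa [inv_inv] at this
    have hYα : th N Y (el N _ hα) = el N _ hα := by
      apply val_inj
      rw [val_th, val_el]
      have h1 : Y * (Y ^ m * (X ^ m)⁻¹) = (Y ^ m * (X ^ m)⁻¹) * Y :=
        ((Commute.self_pow Y m).mul_right ((show Commute Y (X ^ m) from hYX).inv_right)).eq
      rw [h1]; group
    have hα0 : el N _ hα = 0 := by
      have h1 : lam Y • el N _ hα = el N _ hα := by
        rw [hlam]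
        exact th_pow_apply Y (fun a => a = el N _ hα) (by rintro a rfl; exact hYα) m _ rfl
      rw [hlY] at h1
      have h2 : (lam X - 1) • el N _ hα = 0 := by rw [sub_smul, h1, one_smul, sub_self]
      rcases smul_eq_zero.mp h2 with h3 | h3
      · exact absurd (sub_eq_zero.mp h3) hX1
      · exact h3
    have hα1 : Y ^ m * (X ^ m)⁻¹ = 1 := congrArg (val N) hα0
    have hsX : X ^ m * s = s * X ^ m := by
      have h1 : s⁻¹ * X ^ m * s = X ^ m := by rw [← hYm]; exact mul_inv_eq_one.mp hα1
      calc X ^ m * s = s * (s⁻¹ * X ^ m * s) := by group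
        _ = s * X ^ m := by rw [h1]
    have htX : X ^ m * t = t * X ^ m :=
      hgenst (X ^ m) (by rw [← pow_succ, ← pow_succ']) hsX
    -- `β = [t, s^m]`
    have hβ := hcm t s
    have hβ1 : lam X • el N _ hβ = el N _ hβ := by
      rw [hlam]
      apply val_inj
      rw [val_th, val_el]
      have c1 : Commute (X ^ m) t := htX
      have c2 : Commute (X ^ m) (s ^ m) := (show Commute (X ^ m) s from hsX).pow_right m
      have c3 : Commute (X ^ m) (t * s ^ m * t⁻¹ * (s ^ m)⁻¹) :=
        ((c1.mul_right c2).mul_right c1.inv_right).mul_right c2.inv_right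
      rw [c3.eq]; group
    have h2 : (lam X - 1) • el N _ hβ = 0 := by rw [sub_smul, hβ1, one_smul, sub_self]
    rcases smul_eq_zero.mp h2 with h3 | h3
    · exact absurd (sub_eq_zero.mp h3) hX1
    · have h4 : t * s ^ m * t⁻¹ * (s ^ m)⁻¹ = 1 := congrArg (val N) h3
      apply htne
      have := mul_inv_eq_one.mp h4
      rw [mul_inv_eq_iff_eq_mul] at this
      exact this
  by_cases hst : s * t ∈ UU lam
  · have hX : s * s * t ∉ UU lam := by
      intro h
      apply hsU
      have : s = (s * s * t) * (s * t)⁻¹ := by group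
      rw [this]
      exact mul_mem h (inv_mem hst)
    refine main (s * s * t) hX ?_ ?_
    · have : s⁻¹ * (s * s * t) * s = s * t * s := by group
      rw [this]
      exact (hcon' s hsS t htS).2
    · intro z h1 h2
      have c1 : Commute z (s * s * t) := h1
      have c2 : Commute z s := h2
      have : t = (s * s)⁻¹ * (s * s * t) := by group
      show Commute z t
      rw [this]
      exact ((c2.mul_right c2).inv_right).mul_right c1
  · refine main (s * t) hst ?_ ?_
    · have : s⁻¹ * (s * t) * s = t * s := by group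
      rw [this]
      exact (hcon' s hsS t htS).1
    · intro z h1 h2
      have c1 : Commute z (s * t) := h1
      have c2 : Commute z s := h2
      have : t = s⁻¹ * (s * t) := by group
      show Commute z t
      rw [this]
      exact (c2.inv_right).mul_right c1

end

end Pool.Agent.H746UG
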