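import Pool.Agent.H746UG.Alg

set_option autoImplicit false

namespace Pool.Agent.H746UG

open Polynomial Filter Topology

lemma coeff01 : ∀ (w : List Bool) (n : ℕ),
    (dsm (X : ℤ[X]) w).coeff n = 0 ∨ (dsm (X : ℤ[X]) w).coeff n = 1 := by
  intro w
  induction w with
  | nil => intro n; left; simp [dsm]
  | cons b w ih =>
    intro n
    cases n with
    | zero =>
      rw [dsm, coeff_add]
      cases b <;> simp
    | succ n =>
      rw [dsm, coeff_add, coeff_X_mul]
      cases b
      · simp only [Bool.false_eq_true, if_false, coeff_one, Nat.succ_ne_zero, zero_add]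
        exact ih n
      · simp only [if_true, coeff_zero, zero_add]
        exact ih n

lemma integral_of_collision' (x : ℂ) (u v : List Bool) (hl : u.length = v.length) (hne : u ≠ v)
    (h : dsm x u = dsm x v) : IsIntegral ℤ x := by
  set P : ℤ[X] := dsm X u - dsm X v with hP
  have hP0 : P ≠ 0 := by
    intro h0
    exact hne (dsm_X_inj u v hl (sub_eq_zero.mp h0))
  have hPx : aeval x P = 0 := by
    have h1 : ∀ w : List Bool, (aeval x) (dsm (X : ℤ[X]) w) = dsm x w := by
      intro w
      have := dsm_map ((aeval x : ℤ[X] →ₐ[ℤ] ℂ) : ℤ[X] →+* ℂ) X w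
      simpa using this
    rw [hP, map_sub, h1, h1, h, sub_self]
  have hlc : P.leadingCoeff = 1 ∨ P.leadingCoeff = -1 := by
    have h1 : P.leadingCoeff ≠ 0 := leadingCoeff_ne_zero.mpr hP0
    have h2 : P.leadingCoeff =
        (dsm (X : ℤ[X]) u).coeff P.natDegree - (dsm (X : ℤ[X]) v).coeff P.natDegree := by
      rw [← coeff_sub]; rfl
    rcases coeff01 u P.natDegree with h3 | h3 <;> rcases coeff01 v P.natDegree with h4 | h4 <;>
      rw [h3, h4] at h2
    · rw [h2] at h1; simp at h1
    · right; rw [h2]; norm_num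
    · left; rw [h2]; norm_num
    · rw [h2] at h1; simp at h1
  rcases hlc with h1 | h1
  · exact ⟨P, h1, by rw [← aeval_def]; exact hPx⟩
  · refine ⟨-P, ?_, ?_⟩
    · show (-P).leadingCoeff = 1
      rw [leadingCoeff_neg, h1]; norm_num
    · rw [← aeval_def, map_neg, hPx, neg_zero]

lemma dsm_append (y : ℂ) (w : List Bool) (b : Bool) :
    dsm y (w ++ [b]) = dsm y w + y ^ w.length * (if b then 0 else 1) := by
  induction w with
  | nil => simp [dsm]
  | cons a w ih =>
    rw [List.cons_append, dsm, ih, dsm, List.length_cons]; ring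

lemma dsm_reverse (x : ℂ) (hx : x ≠ 0) (w : List Bool) :
    dsm x⁻¹ w.reverse = x⁻¹ ^ w.length * x * dsm x w := by
  induction w with
  | nil => simp [dsm]
  | cons b w ih =>
    rw [List.reverse_cons, dsm_append, ih, List.length_reverse, dsm, List.length_cons, pow_succ]
    field_simp
    ring

lemma integral_of_collision (x : ℂ) (hx : x ≠ 0) (u v : List Bool) (hl : u.length = v.length)
    (hne : u ≠ v) (h : dsm x u = dsm x v) : IsIntegral ℤ x ∧ IsIntegral ℤ x⁻¹ := by
  refine ⟨integral_of_collision' x u v hl hne h, ?_⟩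
  apply integral_of_collision' x⁻¹ u.reverse v.reverse
  · rw [List.length_reverse, List.length_reverse, hl]
  · intro h1; exact hne (List.reverse_injective h1)
  · rw [dsm_reverse x hx, dsm_reverse x hx, hl, h]

/-- The set of all sums `∑ ε_i x ^ i` over `i < n` with digits `ε_i ∈ {0, 1}`. -/
def digitSums (x : ℂ) (n : ℕ) : Set ℂ :=
  {z | ∃ ε : Fin n → Bool, z = ∑ i : Fin n, if ε i then x ^ (i : ℕ) else 0}

lemma mem_digitSums (x : ℂ) (n : ℕ) : ∀ z : ℂ, z ∈ DS x n ↔ z ∈ digitSums x n := by
  induction n with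
  | zero =>
    intro z
    constructor
    · rintro ⟨w, hw, rfl⟩
      rw [List.length_eq_zero_iff] at hw
      subst hw
      exact ⟨fun _ => true, by simp [dsm]⟩
    · rintro ⟨ε, rfl⟩
      exact ⟨[], rfl, by simp [dsm]⟩
  | succ n ih =>
    have hsum : ∀ ε : Fin (n + 1) → Bool,
        (∑ i : Fin (n + 1), if ε i then x ^ (i : ℕ) else 0) =
        (if ε 0 then 1 else 0) + x * ∑ i : Fin n, if ε i.succ then x ^ (i : ℕ) else 0 := by
      intro ε
      rw [Fin.sum_univ_succ, Finset.mul_sum]
      have h1 : (∑ i : Fin n, if ε i.succ then x ^ ((i.succ : Fin (n + 1)) : ℕ) else 0) =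
          ∑ i : Fin n, x * (if ε i.succ then x ^ (i : ℕ) else 0) := by
        apply Finset.sum_congr rfl
        intro i _
        rw [Fin.val_succ, pow_succ']
        split_ifs <;> simp
      rw [h1]
      simp
    intro z
    constructor
    · rintro ⟨w, hw, rfl⟩
      cases w with
      | nil => simp at hw
      | cons b w =>
        simp at hw
        obtain ⟨ε, hε⟩ := (ih (dsm x w)).mp ⟨w, hw, rfl⟩
        refine ⟨Fin.cons (!b) ε, ?_⟩
        rw [hsum, dsm, hε]
        cases b <;> simp
    · rintro ⟨ε, rfl⟩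
      obtain ⟨w, hw, hw'⟩ := (ih (∑ i : Fin n, if ε i.succ then x ^ (i : ℕ) else 0)).mpr
        ⟨fun i => ε i.succ, rfl⟩
      refine ⟨(!ε 0) :: w, by simp [hw], ?_⟩
      rw [hsum, dsm, hw']
      cases ε 0 <;> simp

lemma DS_eq_digitSums (x : ℂ) (n : ℕ) : DS x n = digitSums x n :=
  Set.ext (mem_digitSums x n)

end Pool.Agent.H746UG
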