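import Pool.Agent.H746UG.Ring

set_option autoImplicit false
set_option linter.unusedSectionVars false

namespace Pool.Agent.H746UG

open Subgroup
open scoped IsMulCommutative commutatorElement

variable {G : Type*} [Group G] (N : Subgroup G) [N.Normal] [hN : IsMulCommutative N]

variable [FiniteIndex (center (G ⧸ N))] [Group.FG G]

lemma RR_finiteType : Algebra.FiniteType ℤ (RR N) := by
  have h1 : Group.FG (center (G ⧸ N)) := inferInstance
  have h2 : Algebra.FiniteType ℤ (MonoidAlgebra ℤ (center (G ⧸ N))) := inferInstance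
  exact Algebra.FiniteType.of_surjective (Ideal.Quotient.mkₐ ℤ (RingHom.ker (phi N)))
    (Ideal.Quotient.mkₐ_surjective ℤ _)

lemma RR_noetherian : IsNoetherianRing (RR N) :=
  have := RR_finiteType N
  Algebra.FiniteType.isNoetherianRing ℤ (RR N)

/-- if all multipliers are integral then `RR` is a finite `ℤ`-module -/
lemma RR_finite (h : ∀ g, IsIntegral ℤ (lam N g)) : Module.Finite ℤ (RR N) := by
  have h1 := RR_finiteType N
  have h2 : Algebra.IsIntegral ℤ (RR N) := by
    refine ⟨?_⟩
    apply RR_induct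
    · intro z
      obtain ⟨g, hg⟩ := QuotientGroup.mk_surjective (z : G ⧸ N)
      have h3 : lam N g = qq N z ^ (center (G ⧸ N)).index := by
        show qq N (MonoidHom.transferCenterPow (G ⧸ N) (QuotientGroup.mk g)) = _
        rw [← map_pow]
        congr 1
        apply Subtype.ext
        rw [MonoidHom.transferCenterPow_apply, hg]; rfl
      refine IsIntegral.of_pow (Nat.pos_of_ne_zero
        (FiniteIndex.index_ne_zero (H := center (G ⧸ N)))) ?_
      rw [← h3]; exact h g
    · intro x y hx hy; exact hx.add hy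
    · intro n x hx; exact hx.smul n
  exact Algebra.IsIntegral.finite

/-- `N` is a finitely generated module if it is the normal closure of a finite set -/
lemma mod_finite (E : Set G) (hE : E.Finite) (hNE : N = normalClosure E) :
    Module.Finite (RR N) (Additive N) := by
  classical
  have hEN : ∀ e ∈ E, e ∈ N := fun e he => hNE ▸ subset_normalClosure he
  -- finite generating set
  let gen : Set (Additive N) :=
    {a | ∃ q : (G ⧸ N) ⧸ center (G ⧸ N), ∃ e, ∃ he : e ∈ E, a = th N (q.out.out) (el N e (hEN e he))}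
  have hgen : gen.Finite := by
    have h1 : ((Set.univ : Set ((G ⧸ N) ⧸ center (G ⧸ N))).prod
        (Set.univ : Set E)).Finite := by
      have := hE.to_subtype
      exact Set.finite_univ.prod Set.finite_univ
    refine (h1.image fun p => th N (p.1.out.out) (el N p.2.1 (hEN _ p.2.2))).subset ?_
    rintro _ ⟨q, e, he, rfl⟩
    exact ⟨(q, ⟨e, he⟩), ⟨trivial, trivial⟩, rfl⟩
  let W : Submodule (RR N) (Additive N) := Submodule.span _ gen
  have hconj : ∀ (g : G) (e) (he : e ∈ E), th N g (el N e (hEN e he)) ∈ W := by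
    intro g e he
    set q : (G ⧸ N) ⧸ center (G ⧸ N) := QuotientGroup.mk (QuotientGroup.mk g : G ⧸ N) with hq
    set r : G := q.out.out with hr
    have hrq : (QuotientGroup.mk r : G ⧸ N) = q.out := by
      rw [hr]; exact Quotient.out_eq' _
    have hz : (QuotientGroup.mk (g * r⁻¹) : G ⧸ N) ∈ center (G ⧸ N) := by
      have h1 : (QuotientGroup.mk (QuotientGroup.mk g : G ⧸ N) : (G ⧸ N) ⧸ center (G ⧸ N)) =
          QuotientGroup.mk (QuotientGroup.mk r : G ⧸ N) := by
        rw [hrq, ← hq]; exact (Quotient.out_eq' _).symm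
      have h2 := QuotientGroup.eq.mp h1.symm
      -- r⁻¹ g central
      have h3 : (QuotientGroup.mk g : G ⧸ N) * (QuotientGroup.mk r : G ⧸ N)⁻¹ =
          (QuotientGroup.mk r : G ⧸ N)⁻¹ * QuotientGroup.mk g := by
        have h4 := mem_center_iff.mp h2 (QuotientGroup.mk r : G ⧸ N)
        have h5 : (QuotientGroup.mk g : G ⧸ N) =
            (QuotientGroup.mk r : G ⧸ N)⁻¹ * QuotientGroup.mk g * QuotientGroup.mk r := by
          rw [← h4]; group
        calc (QuotientGroup.mk g : G ⧸ N) * (QuotientGroup.mk r : G ⧸ N)⁻¹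
            = ((QuotientGroup.mk r : G ⧸ N)⁻¹ * QuotientGroup.mk g * QuotientGroup.mk r) *
              (QuotientGroup.mk r : G ⧸ N)⁻¹ := by rw [← h5]
          _ = _ := by group
      rw [QuotientGroup.mk_mul, QuotientGroup.mk_inv, h3]
      exact h2
    have h6 : th N g (el N e (hEN e he)) =
        qq N ⟨_, hz⟩ • th N r (el N e (hEN e he)) := by
      rw [qq_smul, ← th_mul_apply]; congr 2; group
    rw [h6]
    exact W.smul_mem _ (Submodule.subset_span ⟨q, e, he, rfl⟩)
  -- the corresponding subgroup
  let W' : Subgroup G := (AddSubgroup.toSubgroup' W.toAddSubgroup).map N.subtype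
  have hW' : ∀ x (hx : x ∈ N), x ∈ W' → el N x hx ∈ W := by
    rintro x hx ⟨y, hy, rfl⟩
    exact hy
  have h7 : normalClosure E ≤ W' := by
    rw [normalClosure, Subgroup.closure_le]
    intro x hx
    obtain ⟨e, he, hxe⟩ := Group.mem_conjugatesOfSet_iff.mp hx
    obtain ⟨g, hg⟩ := isConj_iff.mp hxe
    have hxN : x ∈ N := by
      rw [← hg]; exact (inferInstance : N.Normal).conj_mem e (hEN e he) g
    refine ⟨⟨x, hxN⟩, ?_, rfl⟩
    have h8 := hconj g e he
    have h9 : th N g (el N e (hEN e he)) = el N x hxN := by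
      apply val_inj
      rw [val_th, val_el, val_el, hg]
    rw [h9] at h8
    exact h8
  refine ⟨⟨hgen.toFinset, ?_⟩⟩
  rw [Set.Finite.coe_toFinset]
  rw [eq_top_iff]
  intro a _
  have h10 : val N a ∈ W' := h7 (hNE ▸ val_mem a)
  exact hW' _ (val_mem a) h10

omit [FiniteIndex (center (G ⧸ N))] [Group.FG G] in
lemma fg_of_finite (h : Module.Finite ℤ (Additive N)) : N.FG := by
  have h1 : AddGroup.FG (Additive N) := Module.Finite.iff_addGroup_fg.mp h
  rw [← Group.fg_iff_subgroup_fg]
  exact GroupFG.iff_add_fg.mpr h1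

omit [FiniteIndex (center (G ⧸ N))] [Group.FG G] in
lemma finite_of_fg (h : N.FG) : Module.Finite ℤ (Additive N) := by
  rw [← Group.fg_iff_subgroup_fg] at h
  exact Module.Finite.iff_addGroup_fg.mpr (GroupFG.iff_add_fg.mp h)

theorem jn_core [Nontrivial (Additive N)]
    (hJN : ∀ r, phi N r = 0 ∨ Function.Injective (phi N r))
    (S : Set G) (hgen : Subgroup.closure S = ⊤)
    (E : Set G) (hE : E.Finite) (hNE : N = normalClosure E) (hNfg : ¬ N.FG) :
    ∃ s ∈ S, ∃ t ∈ S, FreePair (s * t) (t * s) ∨ FreePair (s * s * t) (s * t * s) := by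
  have h1 := RR_domain N hJN
  have h2 := RR_torsionFree N hJN
  refine core S hgen (th_comm_finite N) (center (G ⧸ N)).index (lam N) (lam_smul N)
    (pow_central N) ?_
  by_contra hcon
  push Not at hcon
  apply hNfg
  have h3 := RR_finite N hcon
  have h4 := mod_finite N E hE hNE
  have h5 : Module.Finite ℤ (Additive N) := Module.Finite.trans (RR N) (Additive N)
  exact fg_of_finite N h5

end Pool.Agent.H746UG
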