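import Pool.Agent.H746UG.Noeth

set_option autoImplicit false
set_option linter.unusedSectionVars false

namespace Pool.Agent.H746UG

open Subgroup
open scoped IsMulCommutative commutatorElement Pointwise

/-- the conclusion: a short free pair -/
def HasPair {G : Type*} [Group G] (S : Set G) : Prop :=
  ∃ s ∈ S, ∃ t ∈ S, FreePair (s * t) (t * s) ∨ FreePair (s * s * t) (s * t * s)

lemma hasPair_of_map {G G' : Type*} [Group G] [Group G'] (f : G →* G') (S : Set G)
    (h : HasPair (f '' S)) : HasPair S := by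
  obtain ⟨_, ⟨s, hs, rfl⟩, _, ⟨t, ht, rfl⟩, h⟩ := h
  refine ⟨s, hs, t, ht, ?_⟩
  rcases h with h | h
  · left
    apply freePair_of_map f
    rwa [map_mul, map_mul]
  · right
    apply freePair_of_map f
    rwa [map_mul, map_mul, map_mul, map_mul]

section

variable {G : Type*} [Group G]

/-- subgroup version with `N` abelian normal -/
theorem abelian_case (S : Set G) (hS : S.Finite) (hgen : Subgroup.closure S = ⊤)
    (A : Subgroup G) [hAn : A.Normal] [hA : IsMulCommutative A] [FiniteIndex (center (G ⧸ A))]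
    (hAfg : ¬ A.FG) : HasPair S := by
  have hGfg : Group.FG G := ⟨⟨hS.toFinset, by rw [Set.Finite.coe_toFinset]; exact hgen⟩⟩
  let C : Subgroup G := (center (G ⧸ A)).comap (QuotientGroup.mk' A)
  have hCfi : C.FiniteIndex := by
    refine ⟨?_⟩
    have h1 : C.index = (center (G ⧸ A)).index :=
      Subgroup.index_comap_of_surjective _ (QuotientGroup.mk'_surjective A)
    rw [h1]; exact FiniteIndex.index_ne_zero
  have hCfg : Group.FG C := inferInstance
  rw [Group.fg_iff_subgroup_fg] at hCfg
  obtain ⟨T, hT⟩ := hCfg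
  have hTC : ∀ c ∈ T, c ∈ C := fun c hc => hT ▸ Subgroup.subset_closure hc
  have hcent : ∀ c ∈ C, ∀ g : G, c * g * c⁻¹ * g⁻¹ ∈ A := by
    intro c hc g
    rw [← QuotientGroup.eq_one_iff]
    have h1 := mem_center_iff.mp (show (QuotientGroup.mk c : G ⧸ A) ∈ center (G ⧸ A) from hc)
      (QuotientGroup.mk g)
    rw [QuotientGroup.mk_mul, QuotientGroup.mk_mul, QuotientGroup.mk_mul, ← h1,
      QuotientGroup.mk_inv, QuotientGroup.mk_inv]
    group
  let E : Set G := (fun p : G × G => p.1 * p.2 * p.1⁻¹ * p.2⁻¹) '' ((T : Set G) ×ˢ S)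
  have hE : E.Finite := (T.finite_toSet.prod hS).image _
  let N : Subgroup G := normalClosure E
  have hNA : N ≤ A := by
    apply Subgroup.normalClosure_le_normal
    rintro _ ⟨⟨c, s⟩, ⟨hc, hs⟩, rfl⟩
    exact hcent c (hTC c hc) s
  have hNc : IsMulCommutative N := by
    refine ⟨⟨?_⟩⟩
    rintro ⟨a, ha⟩ ⟨b, hb⟩
    apply Subtype.ext
    exact comm_of_mem (N := A) (hNA ha) (hNA hb)
  -- `C` is central modulo `N`
  have hCN : C.map (QuotientGroup.mk' N) ≤ center (G ⧸ N) := by
    rw [← hT, MonoidHom.map_closure, Subgroup.closure_le]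
    rintro _ ⟨c, hc, rfl⟩
    have h1 : (⊤ : Subgroup (G ⧸ N)) ≤ Subgroup.centralizer {QuotientGroup.mk' N c} := by
      have h2 : (⊤ : Subgroup (G ⧸ N)) = Subgroup.closure (QuotientGroup.mk' N '' S) := by
        rw [← MonoidHom.map_closure, hgen, ← MonoidHom.range_eq_map,
          MonoidHom.range_eq_top_of_surjective _ (QuotientGroup.mk'_surjective N)]
      rw [h2, Subgroup.closure_le]
      rintro _ ⟨s, hs, rfl⟩
      rw [SetLike.mem_coe, Subgroup.mem_centralizer_singleton_iff]
      have h3 : c * s * c⁻¹ * s⁻¹ ∈ N := Subgroup.subset_normalClosure ⟨(c, s), ⟨hc, hs⟩, rfl⟩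
      have h4 := (QuotientGroup.eq_one_iff _).mpr h3
      have h5 : QuotientGroup.mk' N c * QuotientGroup.mk' N s * (QuotientGroup.mk' N c)⁻¹ *
          (QuotientGroup.mk' N s)⁻¹ = 1 := h4
      have h6 := mul_inv_eq_one.mp h5
      rw [mul_inv_eq_iff_eq_mul] at h6
      exact h6.symm
    rw [SetLike.mem_coe, mem_center_iff]
    intro g
    exact Subgroup.mem_centralizer_singleton_iff.mp (h1 (mem_top g))
  have hfi : FiniteIndex (center (G ⧸ N)) := by
    refine ⟨fun h => ?_⟩
    have h1 : (C.map (QuotientGroup.mk' N)).index ≠ 0 :=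
      ne_zero_of_dvd_ne_zero hCfi.index_ne_zero
        (Subgroup.index_map_dvd C (QuotientGroup.mk'_surjective N))
    exact h1 (Nat.eq_zero_of_zero_dvd (h ▸ Subgroup.index_dvd_of_le hCN))
  refine noeth_core N S hgen E hE rfl ?_
  -- if `N` is finitely generated then so is `A`
  intro hNfg
  apply hAfg
  have hAC : A ≤ C := by
    intro a ha
    show (QuotientGroup.mk a : G ⧸ A) ∈ center (G ⧸ A)
    rw [(QuotientGroup.eq_one_iff a).mpr ha]; exact one_mem _
  let C' : Subgroup (G ⧸ N) := C.map (QuotientGroup.mk' N)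
  have hC'c : IsMulCommutative C' := by
    refine ⟨⟨?_⟩⟩
    rintro ⟨a, ha⟩ ⟨b, hb⟩
    apply Subtype.ext
    exact (mem_center_iff.mp (hCN ha) b).symm
  have hC'fg : C'.FG := by
    have h1 : Group.FG C := inferInstance
    exact (Group.fg_iff_subgroup_fg C').mp (Group.fg_of_surjective
      (f := (QuotientGroup.mk' N).subgroupMap C) ((QuotientGroup.mk' N).subgroupMap_surjective C))
  have hC'n : C'.Normal := by
    refine ⟨?_⟩
    intro a ha g
    have := mem_center_iff.mp (hCN ha) g
    rw [this]; simpa using ha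
  have h1 : Module.Finite ℤ (Additive C') := finite_of_fg C' hC'fg
  have h2 : IsNoetherian ℤ (Additive C') := isNoetherian_of_isNoetherianRing_of_finite _ _
  have h3 : Module.Finite ℤ (Additive N) := finite_of_fg N hNfg
  let ρ : Additive A →ₗ[ℤ] Additive C' :=
    (AddMonoidHom.mk' (fun a => el C' (QuotientGroup.mk' N (val A a))
      ⟨val A a, hAC (val_mem a), rfl⟩) (by
      intro a b
      apply val_inj
      show QuotientGroup.mk' N (val A a * val A b) = _
      exact map_mul _ _ _)).toIntLinearMap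
  let ι : Additive N →ₗ[ℤ] Additive A :=
    (AddMonoidHom.mk' (fun a => el A (val N a) (hNA (val_mem a))) (by
      intro a b
      apply val_inj
      rfl)).toIntLinearMap
  apply fg_of_finite
  refine ⟨?_⟩
  refine Submodule.fg_of_fg_map_of_fg_inf_ker ρ (IsNoetherian.noetherian _) ?_
  have h4 : (⊤ : Submodule ℤ (Additive A)) ⊓ LinearMap.ker ρ = Submodule.map ι ⊤ := by
    rw [top_inf_eq]
    ext a
    rw [LinearMap.mem_ker]
    constructor
    · intro h
      have h5 : QuotientGroup.mk' N (val A a) = 1 := congrArg (val C') h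
      have h6 : val A a ∈ N := (QuotientGroup.eq_one_iff _).mp h5
      exact ⟨el N (val A a) h6, Submodule.mem_top, rfl⟩
    · rintro ⟨b, _, rfl⟩
      apply val_inj
      exact (QuotientGroup.eq_one_iff _).mpr (val_mem b)
  rw [h4]
  exact h3.fg_top.map _

lemma center_fi_of_finite (N : Subgroup G) [N.Normal] [Group.FG G]
    (h : Finite (commutator (G ⧸ N))) : FiniteIndex (center (G ⧸ N)) := by
  have h1 : Finite (commutatorSet (G ⧸ N)) := by
    have h2 : (commutator (G ⧸ N) : Set (G ⧸ N)).Finite := Set.toFinite _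
    refine (h2.subset ?_).to_subtype
    rw [commutator_eq_closure]
    exact Subgroup.subset_closure
  infer_instance

/-- main theorem -/
theorem main (S : Set G) (hS : S.Finite) (hgen : Subgroup.closure S = ⊤)
    (N : Subgroup G) [hNn : N.Normal] (h : Finite (commutator (G ⧸ N)))
    (hfg : ¬ Group.FG (Abelianization N)) : HasPair S := by
  have hGfg : Group.FG G := ⟨⟨hS.toFinset, by rw [Set.Finite.coe_toFinset]; exact hgen⟩⟩
  have hfi := center_fi_of_finite N h
  let B : Subgroup G := ⁅N, N⁆
  have hB : B.Normal := Subgroup.commutator_normal N N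
  have hBN : B ≤ N := Subgroup.commutator_le_left N N
  let π : G →* G ⧸ B := QuotientGroup.mk' B
  have hπ : Function.Surjective π := QuotientGroup.mk'_surjective B
  let A : Subgroup (G ⧸ B) := N.map π
  have hAn : A.Normal := hNn.map π hπ
  have hAc : IsMulCommutative A := by
    refine ⟨⟨?_⟩⟩
    rintro ⟨_, a, ha, rfl⟩ ⟨_, b, hb, rfl⟩
    apply Subtype.ext
    show π a * π b = π b * π a
    have h1 : a * b * a⁻¹ * b⁻¹ ∈ B := Subgroup.commutator_mem_commutator ha hb
    have h2 : π (a * b * a⁻¹ * b⁻¹) = 1 := (QuotientGroup.eq_one_iff _).mpr h1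
    rw [map_mul, map_mul, map_mul, map_inv, map_inv] at h2
    have h3 := mul_inv_eq_one.mp h2
    rw [mul_inv_eq_iff_eq_mul] at h3
    exact h3
  have hfi1 : FiniteIndex (center ((G ⧸ B) ⧸ A)) := by
    refine center_fi (QuotientGroup.map N A π (Subgroup.le_comap_map _ _)) ?_
    intro x
    obtain ⟨x, rfl⟩ := QuotientGroup.mk_surjective x
    obtain ⟨x, rfl⟩ := hπ x
    exact ⟨QuotientGroup.mk x, rfl⟩
  have hgen1 : Subgroup.closure (π '' S) = ⊤ := by
    rw [← MonoidHom.map_closure, hgen, ← MonoidHom.range_eq_map,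
      MonoidHom.range_eq_top_of_surjective π hπ]
  apply hasPair_of_map π
  refine abelian_case (π '' S) (hS.image _) hgen1 A ?_
  intro hAfg
  apply hfg
  rw [← Group.fg_iff_subgroup_fg] at hAfg
  -- `A ≃ Abelianization N`
  let f : N →* A := π.subgroupMap N
  have hf : Function.Surjective f := π.subgroupMap_surjective N
  have hker : f.ker = commutator N := by
    have h1 : (commutator N).map N.subtype = ⁅N, N⁆ := Subgroup.map_subtype_commutator N
    ext x
    rw [MonoidHom.mem_ker]
    constructor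
    · intro hx
      have h2 : π (x : G) = 1 := congrArg Subtype.val hx
      have h3 : (x : G) ∈ ⁅N, N⁆ := (QuotientGroup.eq_one_iff _).mp h2
      rw [← h1] at h3
      obtain ⟨y, hy, hyx⟩ := h3
      rwa [← Subtype.ext (a1 := y) (a2 := x) hyx]
    · intro hx
      apply Subtype.ext
      show π (x : G) = 1
      have h3 : (x : G) ∈ ⁅N, N⁆ := by rw [← h1]; exact ⟨x, hx, rfl⟩
      exact (QuotientGroup.eq_one_iff _).mpr h3
  let e : A ≃* Abelianization N :=
    (QuotientGroup.quotientKerEquivOfSurjective f hf).symm.trans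
      (QuotientGroup.quotientMulEquivOfEq hker)
  exact Group.fg_of_surjective (f := e.toMonoidHom) e.surjective

/-- growth of `S` from a short free pair -/
lemma growth (S : Set G) (hS : S.Finite) (h : HasPair S) (n : ℕ) :
    2 ^ n ≤ Nat.card ↥(S ^ n) ^ 3 := by
  obtain ⟨s, hs, t, ht, h⟩ := h
  have hne : (S ^ n).Nonempty := ⟨s ^ n, Set.pow_mem_pow hs⟩
  have hpos : 0 < Nat.card ↥(S ^ n) := by
    have : Finite ↥(S ^ n) := finite_pow S hS n
    have : Nonempty ↥(S ^ n) := hne.to_subtype
    exact Nat.card_pos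
  rcases h with h | h
  · have h1 : s * t ∈ S ^ 2 := by rw [pow_two]; exact Set.mul_mem_mul hs ht
    have h2 : t * s ∈ S ^ 2 := by rw [pow_two]; exact Set.mul_mem_mul ht hs
    exact (growth_of_freePair S hS 2 h1 h2 h n).trans (Nat.pow_le_pow_right hpos (by norm_num))
  · have h1 : s * s * t ∈ S ^ 3 := by
      rw [pow_succ, pow_two]; exact Set.mul_mem_mul (Set.mul_mem_mul hs hs) ht
    have h2 : s * t * s ∈ S ^ 3 := by
      rw [pow_succ, pow_two]; exact Set.mul_mem_mul (Set.mul_mem_mul hs ht) hs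
    exact growth_of_freePair S hS 3 h1 h2 h n

end

end Pool.Agent.H746UG
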