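import Pool.Agent.H746UG.Rate

set_option autoImplicit false
set_option linter.unusedSectionVars false

namespace Pool.Agent.H746UG

open Subgroup
open scoped IsMulCommutative commutatorElement Pointwise

/-- digit sum of a word: the letter `false` in position `i` contributes `x ^ i` -/
def sm {R : Type*} [CommRing R] (x : R) : List Bool → R
  | [] => 0
  | b :: w => (if b then 0 else 1) + x * sm x w

variable {G : Type*} [Group G] (N : Subgroup G) [N.Normal] [hN : IsMulCommutative N]

section

variable (hQ : ∀ g h : G, g * h * g⁻¹ * h⁻¹ ∈ N)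

include hQ in
lemma center_top (g : G) : (QuotientGroup.mk g : G ⧸ N) ∈ center (G ⧸ N) := by
  rw [mem_center_iff]
  intro h
  obtain ⟨h, rfl⟩ := QuotientGroup.mk_surjective h
  have h1 := (QuotientGroup.eq_one_iff _).mpr (hQ h g)
  rw [QuotientGroup.mk_mul, QuotientGroup.mk_mul, QuotientGroup.mk_mul, QuotientGroup.mk_inv,
    QuotientGroup.mk_inv] at h1
  have h2 := mul_inv_eq_one.mp h1
  rwa [mul_inv_eq_iff_eq_mul] at h2

/-- the multiplier of `g` -/
noncomputable def qg : G →* RR N :=
  (qq N).comp ((QuotientGroup.mk' N).codRestrict (center (G ⧸ N)) (center_top N hQ))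

lemma qg_smul (g : G) (a : Additive N) : qg N hQ g • a = th N g a :=
  qq_smul N g (center_top N hQ g) a

/-- the subgroup of the elements commuting with `c` modulo `W` -/
noncomputable def KK (c : G) (W : Submodule (RR N) (Additive N)) : Subgroup G where
  carrier := {g | Phi c (fun g => hQ g c) g ∈ W}
  mul_mem' := by
    intro g h hg hh
    show Phi c _ (g * h) ∈ W
    rw [Phi_mul, ← qg_smul N hQ]
    exact W.add_mem hg (W.smul_mem _ hh)
  one_mem' := by
    show Phi c _ 1 ∈ W
    have h1 : Phi c (fun g => hQ g c) 1 = 0 := Phi_comm c (fun g => hQ g c) (g := 1)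
      (by rw [one_mul, mul_one])
    rw [h1]; exact W.zero_mem
  inv_mem' := by
    intro g hg
    show Phi c _ g⁻¹ ∈ W
    have h1 : Phi c (fun g => hQ g c) 1 = 0 := Phi_comm c (fun g => hQ g c) (g := 1)
      (by rw [one_mul, mul_one])
    have h2 : Phi c (fun g => hQ g c) (g⁻¹ * g) = 0 := by rw [inv_mul_cancel, h1]
    rw [Phi_mul] at h2
    rw [eq_neg_of_add_eq_zero_left h2, ← qg_smul N hQ]
    exact W.neg_mem (W.smul_mem _ hg)

lemma mem_KK (c : G) (W : Submodule (RR N) (Additive N)) (g : G) :
    g ∈ KK N hQ c W ↔ Phi c (fun g => hQ g c) g ∈ W := Iff.rfl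

/-- an element of `N` commuting with `c` modulo `W` -/
lemma Phi_of_mem (c : G) (a : Additive N) :
    Phi c (fun g => hQ g c) (val N a) = a - qg N hQ c • a := by
  apply val_inj
  rw [val_sub, qg_smul, val_th]
  simp only [Phi, val_el]
  group

lemma word_eq (X : G) (α : Additive N) (w : List Bool) :
    ev X (val N α * X) w = val N (sm (qg N hQ X) w • α) * X ^ w.length := by
  induction w with
  | nil => simp [ev, sm, val_zero]
  | cons b w ih =>
    rw [ev_cons, ih, List.length_cons, sm]
    have h1 : X * val N (sm (qg N hQ X) w • α) =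
        val N (qg N hQ X • (sm (qg N hQ X) w • α)) * X := by
      rw [qg_smul, val_th]; group
    cases b
    · simp only [Bool.false_eq_true, if_false]
      rw [add_smul, one_smul, mul_smul, val_add]
      calc val N α * X * (val N (sm (qg N hQ X) w • α) * X ^ w.length)
          = val N α * (X * val N (sm (qg N hQ X) w • α)) * X ^ w.length := by group
        _ = _ := by rw [h1, pow_succ']; group
    · simp only [if_true]
      rw [zero_add, mul_smul]
      calc X * (val N (sm (qg N hQ X) w • α) * X ^ w.length)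
          = (X * val N (sm (qg N hQ X) w • α)) * X ^ w.length := by group
        _ = _ := by rw [h1, pow_succ']; group

/-- main computation in the metabelian case -/
theorem met_core (S : Set G) (hgen : Subgroup.closure S = ⊤)
    (W : Submodule (RR N) (Additive N))
    (hprime : ∀ r : RR N, (∀ a : Additive N, r • a ∈ W) ∨ (∀ a : Additive N, r • a ∈ W → a ∈ W))
    (hU : ∃ g, ∀ m > 0, ¬ ∀ a : Additive N, (qg N hQ g ^ m - 1) • a ∈ W) :
    ∃ s ∈ S, ∃ t ∈ S, ∃ X Y : G, ((X = s * t ∧ Y = t * s) ∨ (X = s * s * t ∧ Y = s * t * s)) ∧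
      (∀ m > 0, ¬ ∀ a : Additive N, (qg N hQ X ^ m - 1) • a ∈ W) ∧
      ∀ u v : List Bool, u.length = v.length → ev X Y u = ev X Y v →
        ∀ a : Additive N, (sm (qg N hQ X) u - sm (qg N hQ X) v) • a ∈ W := by
  classical
  -- the elements acting as roots of unity
  let U : Subgroup G :=
    { carrier := {g | ∃ m > 0, ∀ a : Additive N, (qg N hQ g ^ m - 1) • a ∈ W}
      mul_mem' := by
        rintro g h ⟨m, hm, hg⟩ ⟨n, hn, hh⟩
        refine ⟨m * n, Nat.mul_pos hm hn, ?_⟩
        intro a
        rw [map_mul, mul_pow]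
        obtain ⟨c, hc⟩ : (qg N hQ g ^ m - 1) ∣ (qg N hQ g ^ (m * n) - 1) := by
          rw [pow_mul]
          simpa using sub_dvd_pow_sub_pow (qg N hQ g ^ m) 1 n
        obtain ⟨d, hd⟩ : (qg N hQ h ^ n - 1) ∣ (qg N hQ h ^ (m * n) - 1) := by
          rw [mul_comm m n, pow_mul]
          simpa using sub_dvd_pow_sub_pow (qg N hQ h ^ n) 1 m
        have h1 : qg N hQ g ^ (m * n) * qg N hQ h ^ (m * n) - 1 =
            c * (qg N hQ g ^ m - 1) * qg N hQ h ^ (m * n) + d * (qg N hQ h ^ n - 1) := by
          have h2 : qg N hQ g ^ (m * n) = 1 + (qg N hQ g ^ m - 1) * c := by rw [← hc]; ring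
          have h3 : d * (qg N hQ h ^ n - 1) = qg N hQ h ^ (m * n) - 1 := by rw [hd]; ring
          rw [h2, h3]; ring
        rw [h1, add_smul, mul_assoc, mul_comm (qg N hQ g ^ m - 1), ← mul_assoc, mul_smul,
          mul_smul d]
        exact W.add_mem (W.smul_mem _ (hg a)) (W.smul_mem _ (hh a))
      one_mem' := ⟨1, Nat.one_pos, fun a => by
        rw [map_one, one_pow, sub_self, zero_smul]; exact W.zero_mem⟩
      inv_mem' := by
        rintro g ⟨m, hm, hg⟩
        refine ⟨m, hm, fun a => ?_⟩
        have h1 : qg N hQ g⁻¹ ^ m * qg N hQ g ^ m = 1 := by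
          rw [← mul_pow, ← map_mul, inv_mul_cancel, map_one, one_pow]
        have h2 : qg N hQ g⁻¹ ^ m - 1 = (- qg N hQ g⁻¹ ^ m) * (qg N hQ g ^ m - 1) := by
          have : (- qg N hQ g⁻¹ ^ m) * (qg N hQ g ^ m - 1) =
            - (qg N hQ g⁻¹ ^ m * qg N hQ g ^ m) + qg N hQ g⁻¹ ^ m := by ring
          rw [this, h1]; ring
        rw [h2, mul_smul]
        exact W.smul_mem _ (hg a) }
  have hs : ∃ s ∈ S, s ∉ U := by
    by_contra h
    push Not at h
    have h1 : (⊤ : Subgroup G) ≤ U := by
      rw [← hgen]; exact (Subgroup.closure_le _).mpr h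
    obtain ⟨g, hg⟩ := hU
    obtain ⟨m, hm, h2⟩ := h1 (mem_top g)
    exact hg m hm h2
  obtain ⟨s, hsS, hsU⟩ := hs
  have ht : ∃ t ∈ S, t ∉ KK N hQ s W := by
    by_contra h
    push Not at h
    have h1 : (⊤ : Subgroup G) ≤ KK N hQ s W := by
      rw [← hgen]; exact (Subgroup.closure_le _).mpr h
    apply hsU
    refine ⟨1, Nat.one_pos, fun a => ?_⟩
    have h2 : Phi s (fun g => hQ g s) (val N a) ∈ W := h1 (mem_top (val N a))
    rw [Phi_of_mem N hQ] at h2
    have h3 := W.neg_mem h2
    rw [pow_one, sub_smul, one_smul]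
    convert h3 using 1
    abel
  obtain ⟨t, htS, htK⟩ := ht
  have main : ∀ X : G, X ∉ U → (∀ V : Subgroup G, X ∈ V → s ∈ V → t ∈ V) →
      ∀ u v : List Bool, u.length = v.length →
        ev X (s⁻¹ * X * s) u = ev X (s⁻¹ * X * s) v →
        ∀ a : Additive N, (sm (qg N hQ X) u - sm (qg N hQ X) v) • a ∈ W := by
    intro X hXU hgenst u v hl he
    -- `α = Y X⁻¹`
    have hαN : s⁻¹ * X * s * X⁻¹ ∈ N := by
      have := hQ s⁻¹ X
      rwa [inv_inv] at this
    set α : Additive N := el N _ hαN with hα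
    have hY : s⁻¹ * X * s = val N α * X := by
      rw [hα, val_el]; group
    have hαW : α ∉ W := by
      intro h
      have h1 : s⁻¹ ∈ KK N hQ X W := by
        rw [mem_KK]
        have : Phi X (fun g => hQ g X) s⁻¹ = α := by
          apply val_inj
          simp only [Phi, val_el, hα]
          rw [inv_inv]
        rw [this]; exact h
      have h2 : s ∈ KK N hQ X W := by
        have := inv_mem h1
        rwa [inv_inv] at this
      have h3 : X ∈ KK N hQ X W := by
        rw [mem_KK, Phi_comm X (fun g => hQ g X) (g := X) rfl]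
        exact W.zero_mem
      have h4 : t ∈ KK N hQ X W := hgenst _ h3 h2
      have h5 : t * s * t⁻¹ * s⁻¹ ∈ KK N hQ X W :=
        mul_mem (mul_mem (mul_mem h4 h2) (inv_mem h4)) (inv_mem h2)
      have h6 : Phi s (fun g => hQ g s) t - qg N hQ X • Phi s (fun g => hQ g s) t ∈ W := by
        rw [← Phi_of_mem N hQ]
        exact h5
      have h7 : (qg N hQ X - 1) • Phi s (fun g => hQ g s) t ∈ W := by
        have h8 := W.neg_mem h6
        rw [sub_smul, one_smul]
        convert h8 using 1
        abel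
      rcases hprime (qg N hQ X - 1) with h8 | h8
      · apply hXU
        exact ⟨1, Nat.one_pos, fun a => by rw [pow_one]; exact h8 a⟩
      · exact htK (h8 _ h7)
    rw [hY, word_eq N hQ, word_eq N hQ, hl] at he
    have h1 : sm (qg N hQ X) u • α = sm (qg N hQ X) v • α := val_inj (mul_right_cancel he)
    have h2 : (sm (qg N hQ X) u - sm (qg N hQ X) v) • α ∈ W := by
      rw [sub_smul, h1, sub_self]; exact W.zero_mem
    rcases hprime (sm (qg N hQ X) u - sm (qg N hQ X) v) with h3 | h3
    · exact h3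
    · exact absurd (h3 _ h2) hαW
  by_cases hst : s * t ∈ U
  · have hX : s * s * t ∉ U := by
      intro h
      apply hsU
      have : s = (s * s * t) * (s * t)⁻¹ := by group
      rw [this]
      exact mul_mem h (inv_mem hst)
    refine ⟨s, hsS, t, htS, s * s * t, s * t * s, Or.inr ⟨rfl, rfl⟩, ?_, ?_⟩
    · intro m hm h
      exact hX ⟨m, hm, h⟩
    · have h1 : s⁻¹ * (s * s * t) * s = s * t * s := by group
      have h2 := main (s * s * t) hX (by
        intro V h3 h4
        have : t = (s * s)⁻¹ * (s * s * t) := by group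
        rw [this]
        exact mul_mem (inv_mem (mul_mem h4 h4)) h3)
      rwa [h1] at h2
  · refine ⟨s, hsS, t, htS, s * t, t * s, Or.inl ⟨rfl, rfl⟩, ?_, ?_⟩
    · intro m hm h
      exact hst ⟨m, hm, h⟩
    · have h1 : s⁻¹ * (s * t) * s = t * s := by group
      have h2 := main (s * t) hst (by
        intro V h3 h4
        have : t = s⁻¹ * (s * t) := by group
        rw [this]
        exact mul_mem (inv_mem h4) h3)
      rwa [h1] at h2

/-- virtually unipotent action modulo `W` -/
def VU (W : Submodule (RR N) (Additive N)) : Prop :=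
  ∀ g, ∃ m > 0, ∃ k, ∀ a : Additive N, (qg N hQ g ^ m - 1) ^ k • a ∈ W

lemma exists_prime (hnoeth : IsNoetherian (RR N) (Additive N)) (h : ¬ VU N hQ ⊥) :
    ∃ W : Submodule (RR N) (Additive N),
      (∀ r : RR N, (∀ a : Additive N, r • a ∈ W) ∨ (∀ a : Additive N, r • a ∈ W → a ∈ W)) ∧
      (∃ g, ∀ m > 0, ¬ ∀ a : Additive N, (qg N hQ g ^ m - 1) • a ∈ W) := by
  obtain ⟨W, hW, hmax⟩ := (set_has_maximal_iff_noetherian.mpr hnoeth)
    {W : Submodule (RR N) (Additive N) | ¬ VU N hQ W} ⟨⊥, h⟩
  refine ⟨W, ?_, ?_⟩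
  · intro r
    by_contra hcon
    push Not at hcon
    obtain ⟨⟨a0, ha0⟩, a1, ha1, ha1'⟩ := hcon
    apply hW
    let K : Submodule (RR N) (Additive N) :=
      { carrier := {a | r • a ∈ W}
        add_mem' := fun {a b} ha hb => by
          show r • (a + b) ∈ W
          rw [smul_add]; exact W.add_mem ha hb
        zero_mem' := by
          show r • (0 : Additive N) ∈ W
          rw [smul_zero]; exact W.zero_mem
        smul_mem' := fun c a ha => by
          show r • (c • a) ∈ W
          rw [smul_comm]; exact W.smul_mem _ ha }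
    have hK : VU N hQ K := by
      by_contra hb
      refine hmax K hb (lt_of_le_of_ne (fun a ha => W.smul_mem r ha) ?_)
      intro heq
      exact ha1' (heq ▸ ha1)
    let I : Submodule (RR N) (Additive N) :=
      { carrier := {a | ∃ b : Additive N, a - r • b ∈ W}
        add_mem' := fun {a b} ⟨c, hc⟩ ⟨d, hd⟩ => ⟨c + d, by
          have := W.add_mem hc hd
          rw [smul_add]
          convert this using 1
          abel⟩
        zero_mem' := ⟨0, by rw [smul_zero, sub_zero]; exact W.zero_mem⟩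
        smul_mem' := fun e a ⟨b, hb⟩ => ⟨e • b, by
          have := W.smul_mem e hb
          rw [smul_sub] at this
          rwa [smul_comm r e b]⟩ }
    have hI : VU N hQ I := by
      by_contra hb
      refine hmax I hb (lt_of_le_of_ne (fun a ha => ⟨0, by rw [smul_zero, sub_zero]; exact ha⟩) ?_)
      intro heq
      apply ha0
      rw [heq]
      exact ⟨a0, by rw [sub_self]; exact W.zero_mem⟩
    intro g
    obtain ⟨m, hm, k, hk⟩ := hK g
    obtain ⟨m', hm', k', hk'⟩ := hI g
    refine ⟨m * m', Nat.mul_pos hm hm', k + k', fun a => ?_⟩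
    obtain ⟨c, hc⟩ : (qg N hQ g ^ m - 1) ∣ (qg N hQ g ^ (m * m') - 1) := by
      rw [pow_mul]
      simpa using sub_dvd_pow_sub_pow (qg N hQ g ^ m) 1 m'
    obtain ⟨d, hd⟩ : (qg N hQ g ^ m' - 1) ∣ (qg N hQ g ^ (m * m') - 1) := by
      rw [mul_comm m m', pow_mul]
      simpa using sub_dvd_pow_sub_pow (qg N hQ g ^ m') 1 m
    obtain ⟨b, hb⟩ := hk' a
    have h1 : ∀ x x' y : RR N, y = x * c → y = x' * d → y ^ (k + k') • a =
        (y ^ k * d ^ k') • (x' ^ k' • a - r • b) + (d ^ k' * c ^ k) • (r • (x ^ k • b)) := by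
      intro x x' y hx hy
      rw [smul_sub, ← mul_smul, ← mul_smul, ← mul_smul, ← mul_smul]
      have e1 : y ^ k * d ^ k' * x' ^ k' = y ^ (k + k') := by
        have : y ^ k' = x' ^ k' * d ^ k' := by rw [hy, mul_pow]
        rw [pow_add, this]; ring
      have e2 : d ^ k' * c ^ k * r * x ^ k = y ^ k * d ^ k' * r := by
        have : y ^ k = x ^ k * c ^ k := by rw [hx, mul_pow]
        rw [this]; ring
      rw [e1, ← e2]; abel
    rw [h1 _ _ _ hc hd]
    exact W.add_mem (W.smul_mem _ hb) (W.smul_mem _ (hk b))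
  · by_contra hcon
    push Not at hcon
    apply hW
    intro g
    obtain ⟨m, hm, h1⟩ := hcon g
    exact ⟨m, hm, 1, fun a => by rw [pow_one]; exact h1 a⟩

end

end Pool.Agent.H746UG
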