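import Pool.Agent.H746UG.MetMain
import Pool.Agent.H746UG.Aff
import Pool.Agent.H746UG.Digits

set_option autoImplicit false

namespace Pool.Agent.H746UG

open Filter Topology
open scoped Pointwise

/-- growth rate of the digit sums -/
noncomputable def eta (x : ℂ) : ℝ :=
  limUnder atTop (fun n : ℕ => Real.log (Nat.card ↥(digitSums x n)) / n)

lemma DS_pos (x : ℂ) (n : ℕ) : 0 < Nat.card (DS x n) := by
  have h1 : Finite (DS x n) := DS_finite x n
  have h2 : Nonempty (DS x n) := ⟨⟨dsm x (List.replicate n true), _, List.length_replicate, rfl⟩⟩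
  exact Nat.card_pos

lemma eta_subadd (x : ℂ) (hx : x ≠ 0) :
    Subadditive (fun n : ℕ => Real.log (Nat.card ↥(digitSums x n))) := by
  have h := subadd (AS x hx)
  intro m n
  have := h m n
  simp only [aff_card, DS_eq_digitSums] at this
  exact this

lemma tendsto_eta (x : ℂ) (hx : x ≠ 0) :
    Tendsto (fun n : ℕ => Real.log (Nat.card ↥(digitSums x n)) / n) atTop (𝓝 (eta x)) := by
  have h := tendsto_rho (AS x hx)
  simp only [aff_card, DS_eq_digitSums] at h
  have h2 : eta x = rho (AS x hx) := h.limUnder_eq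
  rw [h2]; exact h

lemma rho_AS (x : ℂ) (hx : x ≠ 0) : rho (AS x hx) = eta x := by
  have h := tendsto_rho (AS x hx)
  simp only [aff_card, DS_eq_digitSums] at h
  exact tendsto_nhds_unique h (tendsto_eta x hx)

lemma eta_le_rho {G : Type*} [Group G] (S : Set G) (x : ℂ) (hx : x ≠ 0)
    (h : ∀ n, Nat.card ↥(digitSums x n) ≤ Nat.card ↥(S ^ n) ^ 3) : eta x / 3 ≤ rho S := by
  have h1 : Tendsto (fun n : ℕ => Real.log (Nat.card ↥(digitSums x n)) / n / 3) atTop
      (𝓝 (eta x / 3)) := (tendsto_eta x hx).div_const 3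
  refine le_of_tendsto_of_tendsto' h1 (tendsto_rho S) ?_
  intro n
  have h2 : (0 : ℝ) < Nat.card ↥(digitSums x n) := by
    rw [← DS_eq_digitSums]; exact_mod_cast DS_pos x n
  have h3 : Real.log (Nat.card ↥(digitSums x n)) ≤ 3 * Real.log (Nat.card ↥(S ^ n)) := by
    have h4 : Real.log (Nat.card ↥(digitSums x n)) ≤ Real.log ((Nat.card ↥(S ^ n) : ℝ) ^ 3) := by
      apply Real.log_le_log h2
      exact_mod_cast h n
    rw [Real.log_pow] at h4
    exact_mod_cast h4
  rcases Nat.eq_zero_or_pos n with h0 | h0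
  · subst h0; simp
  · have h5 : (0 : ℝ) < n := by exact_mod_cast h0
    rw [div_div, div_le_div_iff₀ (by positivity) h5]
    nlinarith

lemma eta_log_two (x : ℂ) (hx : x ≠ 0) (h : ¬ (IsIntegral ℤ x ∧ IsIntegral ℤ x⁻¹)) (n : ℕ) :
    Nat.card ↥(digitSums x n) = 2 ^ n := by
  rw [← DS_eq_digitSums]
  apply card_DS_of_inj
  intro u v hl he
  by_contra hne
  exact h (integral_of_collision x hx u v hl hne he)

lemma eta_eq_log_two (x : ℂ) (hx : x ≠ 0) (h : ¬ (IsIntegral ℤ x ∧ IsIntegral ℤ x⁻¹)) :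
    eta x = Real.log 2 := by
  refine tendsto_nhds_unique (tendsto_eta x hx) ?_
  refine tendsto_const_nhds.congr' ?_
  filter_upwards [eventually_gt_atTop 0] with n hn
  have h5 : (n : ℝ) ≠ 0 := by exact_mod_cast hn.ne'
  rw [eta_log_two x hx h, Nat.cast_pow, Real.log_pow]
  push_cast
  field_simp

end Pool.Agent.H746UG
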