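import Pool.Agent.H746UG.VN
import Pool.Agent.H746UG.Alg

set_option autoImplicit false
set_option linter.unusedSectionVars false

namespace Pool.Agent.H746UG

open Subgroup
open scoped IsMulCommutative commutatorElement Pointwise

lemma sm_eq_dsm {R : Type*} [CommRing R] (x : R) (w : List Bool) : sm x w = dsm x w := by
  induction w with
  | nil => rfl
  | cons b w ih => rw [sm, dsm, ih]

variable {G : Type*} [Group G]

lemma commutator_eq_normalClosure (S : Set G) (hgen : Subgroup.closure S = ⊤) :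
    commutator G = normalClosure ((fun p : G × G => p.1 * p.2 * p.1⁻¹ * p.2⁻¹) '' (S ×ˢ S)) := by
  set E : Set G := (fun p : G × G => p.1 * p.2 * p.1⁻¹ * p.2⁻¹) '' (S ×ˢ S) with hE
  apply le_antisymm
  · have hgen' : (⊤ : Subgroup (G ⧸ normalClosure E)) =
        Subgroup.closure (QuotientGroup.mk' (normalClosure E) '' S) := by
      rw [← MonoidHom.map_closure, hgen, ← MonoidHom.range_eq_map,
        MonoidHom.range_eq_top_of_surjective _ (QuotientGroup.mk'_surjective _)]
    have h1 : ∀ s ∈ S, (⊤ : Subgroup (G ⧸ normalClosure E)) ≤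
        Subgroup.centralizer {QuotientGroup.mk' (normalClosure E) s} := by
      intro s hs
      rw [hgen', Subgroup.closure_le]
      rintro _ ⟨t, ht, rfl⟩
      rw [SetLike.mem_coe, Subgroup.mem_centralizer_singleton_iff]
      have h3 : s * t * s⁻¹ * t⁻¹ ∈ normalClosure E :=
        Subgroup.subset_normalClosure ⟨(s, t), ⟨hs, ht⟩, rfl⟩
      have h5 : QuotientGroup.mk' (normalClosure E) s * QuotientGroup.mk' (normalClosure E) t *
          (QuotientGroup.mk' (normalClosure E) s)⁻¹ *
          (QuotientGroup.mk' (normalClosure E) t)⁻¹ = 1 := (QuotientGroup.eq_one_iff _).mpr h3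
      have h6 := mul_inv_eq_one.mp h5
      rw [mul_inv_eq_iff_eq_mul] at h6
      exact h6.symm
    have h2 : (⊤ : Subgroup (G ⧸ normalClosure E)) ≤ center _ := by
      rw [hgen', Subgroup.closure_le]
      rintro _ ⟨s, hs, rfl⟩
      rw [SetLike.mem_coe, mem_center_iff]
      intro g
      exact Subgroup.mem_centralizer_singleton_iff.mp (h1 s hs (mem_top g))
    rw [commutator_def, Subgroup.commutator_le]
    intro g _ h _
    rw [commutatorElement_def, ← QuotientGroup.eq_one_iff]
    have h3 := mem_center_iff.mp (h2 (mem_top (QuotientGroup.mk g : G ⧸ normalClosure E)))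
      (QuotientGroup.mk h)
    rw [QuotientGroup.mk_mul, QuotientGroup.mk_mul, QuotientGroup.mk_mul, ← h3,
      QuotientGroup.mk_inv, QuotientGroup.mk_inv]
    group
  · apply Subgroup.normalClosure_le_normal
    rintro _ ⟨⟨s, t⟩, _, rfl⟩
    exact Subgroup.commutator_mem_commutator (mem_top s) (mem_top t)

theorem met_gap (S : Set G) (hS : S.Finite) (hgen : Subgroup.closure S = ⊤)
    (hmet : derivedSeries G 2 = ⊥) (hnv : ¬ Group.IsVirtuallyNilpotent G) :
    ∃ μ : ℂ, μ ≠ 0 ∧ (∀ m > 0, μ ^ m ≠ 1) ∧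
      ∀ n, Nat.card (DS μ n) ≤ Nat.card ↥(S ^ n) ^ 3 := by
  classical
  have hGfg : Group.FG G := ⟨⟨hS.toFinset, by rw [Set.Finite.coe_toFinset]; exact hgen⟩⟩
  let N : Subgroup G := commutator G
  have hNn : N.Normal := inferInstance
  have h4 : ⁅commutator G, commutator G⁆ = ⊥ := by
    rw [← hmet, derivedSeries_succ, derivedSeries_one]
  have hNc : IsMulCommutative N := by
    refine ⟨⟨?_⟩⟩
    rintro ⟨a, ha⟩ ⟨b, hb⟩
    apply Subtype.ext
    show a * b = b * a
    have h5 : a * b * a⁻¹ * b⁻¹ ∈ (⊥ : Subgroup G) := by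
      rw [← h4]; exact Subgroup.commutator_mem_commutator ha hb
    rw [Subgroup.mem_bot] at h5
    have h6 := mul_inv_eq_one.mp h5
    rwa [mul_inv_eq_iff_eq_mul] at h6
  have hQ : ∀ g h : G, g * h * g⁻¹ * h⁻¹ ∈ N := fun g h =>
    Subgroup.commutator_mem_commutator (mem_top g) (mem_top h)
  have hfi : FiniteIndex (center (G ⧸ N)) := by
    have h1 : center (G ⧸ N) = ⊤ := by
      rw [eq_top_iff]
      intro x _
      obtain ⟨x, rfl⟩ := QuotientGroup.mk_surjective x
      exact center_top N hQ x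
    rw [h1]; infer_instance
  have hnoethR := RR_noetherian N
  have hfinR := mod_finite N _ ((hS.prod hS).image _) (commutator_eq_normalClosure S hgen)
  have hnoeth : IsNoetherian (RR N) (Additive N) := isNoetherian_of_isNoetherianRing_of_finite _ _
  have hVU : ¬ VU N hQ ⊥ := fun h => hnv (vn_of_VU N hQ S hS hgen h)
  obtain ⟨W, hprime, hU⟩ := exists_prime N hQ hnoeth hVU
  obtain ⟨s, hs, t, ht, X, Y, hXY, hXm, hrel⟩ := met_core N hQ S hgen W hprime hU
  let P : Ideal (RR N) :=
    { carrier := {r | ∀ a : Additive N, r • a ∈ W}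
      add_mem' := fun {r r'} hr hr' a => by
        rw [add_smul]; exact W.add_mem (hr a) (hr' a)
      zero_mem' := fun a => by rw [zero_smul]; exact W.zero_mem
      smul_mem' := fun c r hr a => by
        rw [smul_eq_mul, mul_smul]; exact W.smul_mem c (hr a) }
  have hPp : P.IsPrime := by
    refine ⟨?_, ?_⟩
    · intro h
      obtain ⟨g, hg⟩ := hU
      have h1 : (1 : RR N) ∈ P := by rw [h]; trivial
      refine hg 1 Nat.one_pos (fun a => ?_)
      apply W.smul_mem
      have := h1 a
      rwa [one_smul] at this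
    · intro r r' hrr
      rcases hprime r with h1 | h1
      · left; exact h1
      · right
        intro a
        apply h1
        have := hrr a
        rwa [mul_smul] at this
  have hqq : qg N hQ X * qg N hQ X⁻¹ = 1 := by
    rw [← map_mul, mul_inv_cancel, map_one]
  obtain ⟨μ, hμ0, hμ, hμn⟩ := transfer_quot P hPp (qg N hQ X) (qg N hQ X⁻¹) hqq
    (fun m hm h => hXm m hm h)
  refine ⟨μ, hμ0, hμ, fun n => (hμn n).trans ?_⟩
  -- `|DS (Ideal.Quotient.mk P (qg N hQ X)) n| ≤ |S ^ (j n)|`
  have key : ∀ j, X ∈ S ^ j → Y ∈ S ^ j → Nat.card (DS (Ideal.Quotient.mk P (qg N hQ X)) n) ≤ Nat.card ↥(S ^ n) ^ j := by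
    intro j hX hY
    refine le_trans ?_ (card_pow_mul S j n)
    have hf : Finite ↥(S ^ (j * n)) := finite_pow S hS _
    choose w hw1 hw2 using fun z : DS (Ideal.Quotient.mk P (qg N hQ X)) n => z.2
    refine Nat.card_le_card_of_injective (fun z => (⟨ev X Y (w z), by
      have := ev_mem S j hX hY (w z)
      rwa [hw1 z] at this⟩ : ↥(S ^ (j * n)))) ?_
    intro z z' hz
    have h1 : ev X Y (w z) = ev X Y (w z') := congrArg Subtype.val hz
    have h2 := hrel _ _ ((hw1 z).trans (hw1 z').symm) h1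
    have h3 : sm (qg N hQ X) (w z) - sm (qg N hQ X) (w z') ∈ P := h2
    rw [sm_eq_dsm, sm_eq_dsm] at h3
    have h4 := mk_dsm P _ _ _ h3
    apply Subtype.ext
    rw [hw2 z, hw2 z']
    exact h4
  have hpos : 0 < Nat.card ↥(S ^ n) := by
    have h1 : Finite ↥(S ^ n) := finite_pow S hS n
    have h2 : Nonempty ↥(S ^ n) := ⟨⟨s ^ n, Set.pow_mem_pow hs⟩⟩
    exact Nat.card_pos
  rcases hXY with ⟨rfl, rfl⟩ | ⟨rfl, rfl⟩
  · have h1 : s * t ∈ S ^ 2 := by rw [pow_two]; exact Set.mul_mem_mul hs ht
    have h2 : t * s ∈ S ^ 2 := by rw [pow_two]; exact Set.mul_mem_mul ht hs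
    exact (key 2 h1 h2).trans (Nat.pow_le_pow_right hpos (by norm_num))
  · have h1 : s * s * t ∈ S ^ 3 := by
      rw [pow_succ, pow_two]; exact Set.mul_mem_mul (Set.mul_mem_mul hs hs) ht
    have h2 : s * t * s ∈ S ^ 3 := by
      rw [pow_succ, pow_two]; exact Set.mul_mem_mul (Set.mul_mem_mul hs ht) hs
    exact key 3 h1 h2

end Pool.Agent.H746UG
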