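import Pool.Agent.H746UG.Words

/-!
Schreier generators by positive words: if the finite set `S` generates `G` and `H` has index `m`,
then `H` is generated by the elements of `(insert 1 S) ^ (2 * m - 1)` lying in `H`.
-/

set_option autoImplicit false

namespace Pool.Agent.H746UG

open Subgroup
open scoped Pointwise

section act
variable {G α : Type*} [Group G] [MulAction G α]

/-- the points reached from `x` by positive words of length `k` -/
def Rch (U : Set G) (x : α) (k : ℕ) : Set α := {y | ∃ w ∈ U ^ k, w • x = y}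

lemma Rch_zero (U : Set G) (x : α) : Rch U x 0 = {x} := by
  ext y
  constructor
  · rintro ⟨w, hw, rfl⟩
    rw [pow_zero, Set.mem_one] at hw
    rw [hw, one_smul]; rfl
  · rintro rfl
    exact ⟨1, by rw [pow_zero]; exact Set.mem_one.2 rfl, one_smul _ _⟩

lemma mem_Rch_succ (U : Set G) (x : α) (k : ℕ) (y : α) :
    y ∈ Rch U x (k + 1) ↔ ∃ s ∈ U, ∃ z ∈ Rch U x k, s • z = y := by
  constructor
  · rintro ⟨w, hw, rfl⟩
    rw [pow_succ', Set.mem_mul] at hw
    obtain ⟨s, hs, v, hv, rfl⟩ := hw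
    exact ⟨s, hs, v • x, ⟨v, hv, rfl⟩, by rw [mul_smul]⟩
  · rintro ⟨s, hs, z, ⟨v, hv, rfl⟩, rfl⟩
    refine ⟨s * v, ?_, by rw [mul_smul]⟩
    rw [pow_succ']
    exact Set.mul_mem_mul hs hv

lemma Rch_mono (S : Set G) (x : α) (k : ℕ) :
    Rch (insert 1 S) x k ⊆ Rch (insert 1 S) x (k + 1) := by
  intro y hy
  rw [mem_Rch_succ]
  exact ⟨1, Set.mem_insert _ _, y, hy, one_smul _ _⟩

lemma inv_stable (R : Set α) (hfin : R.Finite) (a : G) (h : ∀ y ∈ R, a • y ∈ R) :
    ∀ y ∈ R, a⁻¹ • y ∈ R := by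
  have h1 : (fun z : α => a • z) '' R = R := by
    apply Set.eq_of_subset_of_ncard_le
    · rintro _ ⟨z, hz, rfl⟩; exact h z hz
    · rw [Set.ncard_image_of_injective R (MulAction.injective a)]
    · exact hfin
  intro y hy
  rw [← h1] at hy
  obtain ⟨z, hz, rfl⟩ := hy
  show a⁻¹ • a • z ∈ R
  rwa [inv_smul_smul]

lemma Rch_full [Finite α] (S : Set G) (hgen : closure S = ⊤) (x : α)
    (htr : ∀ y : α, ∃ g : G, g • x = y) (k : ℕ)
    (h : Rch (insert 1 S) x (k + 1) = Rch (insert 1 S) x k) :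
    Rch (insert 1 S) x k = Set.univ := by
  set R := Rch (insert 1 S) x k with hR
  have h1 : ∀ s ∈ S, ∀ y ∈ R, s • y ∈ R := by
    intro s hs y hy
    rw [← h, mem_Rch_succ]
    exact ⟨s, Set.mem_insert_of_mem _ hs, y, hy, rfl⟩
  have hfin : R.Finite := Set.toFinite R
  have h3 : ∀ g : G, ∀ y ∈ R, g • y ∈ R := by
    intro g
    have hg : g ∈ closure S := by rw [hgen]; trivial
    induction hg using closure_induction with
    | mem s hs => exact h1 s hs
    | one => intro y hy; rwa [one_smul]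
    | mul a b _ _ ha hb => intro y hy; rw [mul_smul]; exact ha _ (hb y hy)
    | inv a _ ha => exact inv_stable R hfin a ha
  rw [Set.eq_univ_iff_forall]
  intro y
  obtain ⟨g, rfl⟩ := htr y
  have hx : x ∈ R := by
    rw [hR]
    refine ⟨1, ?_, one_smul _ _⟩
    have := Set.pow_mem_pow (n := k) (Set.mem_insert (1 : G) S)
    rwa [one_pow] at this
  exact h3 g x hx

lemma Rch_card [Finite α] (S : Set G) (hgen : closure S = ⊤) (x : α)
    (htr : ∀ y : α, ∃ g : G, g • x = y) (k : ℕ) :
    Rch (insert 1 S) x k = Set.univ ∨ k + 1 ≤ (Rch (insert 1 S) x k).ncard := by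
  induction k with
  | zero => right; rw [Rch_zero, Set.ncard_singleton]
  | succ k ih =>
    rcases ih with ih | ih
    · left
      rw [Set.eq_univ_iff_forall]
      intro y
      exact Rch_mono S x k (by rw [ih]; trivial)
    · by_cases h : Rch (insert 1 S) x (k + 1) = Rch (insert 1 S) x k
      · left
        rw [h]; exact Rch_full S hgen x htr k h
      · right
        have h1 : Rch (insert 1 S) x k ⊂ Rch (insert 1 S) x (k + 1) :=
          (Rch_mono S x k).ssubset_of_ne (fun h' => h h'.symm)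
        have := Set.ncard_lt_ncard h1 (Set.toFinite _)
        omega

lemma reach [Finite α] (S : Set G) (hgen : closure S = ⊤) (x : α)
    (htr : ∀ y : α, ∃ g : G, g • x = y) (y : α) :
    ∃ w ∈ (insert 1 S) ^ (Nat.card α - 1), w • x = y := by
  have hpos : 0 < Nat.card α := @Nat.card_pos _ ⟨x⟩ _
  have h1 : Rch (insert 1 S) x (Nat.card α - 1) = Set.univ := by
    rcases Rch_card S hgen x htr (Nat.card α - 1) with h | h
    · exact h
    · rw [Set.eq_univ_iff_ncard]
      have := Set.ncard_le_card (Rch (insert 1 S) x (Nat.card α - 1))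
      omega
  have : y ∈ Rch (insert 1 S) x (Nat.card α - 1) := by rw [h1]; trivial
  exact this

end act

section sub
variable {G : Type*} [Group G]

/-- `H` is generated by its elements in `(insert 1 S) ^ (2 m - 1)` -/
theorem schreier_pos (S : Set G) (hgen : closure S = ⊤) (H : Subgroup G) [H.FiniteIndex] :
    H ≤ closure {g : G | g ∈ H ∧ g ∈ (insert 1 S) ^ (2 * H.index - 1)} := by
  set U : Set G := insert 1 S with hU
  set m := H.index with hm
  set K := closure {g : G | g ∈ H ∧ g ∈ U ^ (2 * m - 1)} with hK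
  have hm0 : 0 < m := Nat.pos_of_ne_zero FiniteIndex.index_ne_zero
  have h1U : (1 : G) ∈ U := Set.mem_insert _ _
  have hmono : ∀ a b : ℕ, a ≤ b → U ^ a ⊆ U ^ b := fun a b hab => Set.pow_subset_pow_right h1U hab
  have hfin : Finite (G ⧸ H) := H.finite_quotient_of_finiteIndex
  have htr : ∀ y : G ⧸ H, ∃ g : G, g • ((1 : G) : G ⧸ H) = y := by
    intro y
    obtain ⟨g, rfl⟩ := QuotientGroup.mk_surjective y
    exact ⟨g, by rw [MulAction.Quotient.smul_mk, smul_eq_mul, mul_one]⟩
  have hcard : Nat.card (G ⧸ H) = m := rfl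
  -- representatives
  have hrep : ∀ g : G, ∃ w ∈ U ^ (m - 1), w⁻¹ * g ∈ H := by
    intro g
    obtain ⟨w, hw, hw2⟩ := reach S hgen ((1 : G) : G ⧸ H) htr (g : G ⧸ H)
    rw [hcard] at hw
    refine ⟨w, hw, ?_⟩
    rw [MulAction.Quotient.smul_mk, smul_eq_mul, mul_one] at hw2
    exact QuotientGroup.eq.1 hw2
  -- returns
  have hret : ∀ g : G, ∃ u ∈ U ^ (m - 1), u * g ∈ H := by
    intro g
    have hgen' : closure (S⁻¹) = ⊤ := by rw [closure_inv]; exact hgen
    obtain ⟨w, hw, hw2⟩ := reach S⁻¹ hgen' ((1 : G) : G ⧸ H) htr (g : G ⧸ H)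
    rw [hcard] at hw
    rw [MulAction.Quotient.smul_mk, smul_eq_mul, mul_one] at hw2
    refine ⟨w⁻¹, ?_, QuotientGroup.eq.1 hw2⟩
    have h2 : (insert 1 S⁻¹ : Set G) = U⁻¹ := by
      rw [hU, Set.inv_insert, inv_one]
    rw [h2, inv_pow] at hw
    exact Set.mem_inv.1 hw
  have hKmem : ∀ g : G, g ∈ H → g ∈ U ^ (2 * m - 1) → g ∈ K := fun g h1 h2 =>
    subset_closure ⟨h1, h2⟩
  -- everything is `w * k`
  have key : ∀ s ∈ S, ∀ w ∈ U ^ (m - 1), ∀ w' ∈ U ^ (m - 1), w'⁻¹ * (s * w) ∈ H →
      w'⁻¹ * (s * w) ∈ K := by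
    intro s hs w hw w' hw' h
    obtain ⟨u, hu, huw⟩ := hret w'
    have h1 : u * w' ∈ K := by
      apply hKmem _ huw
      apply hmono (m - 1 + (m - 1)) _ (by omega)
      rw [pow_add]; exact Set.mul_mem_mul hu hw'
    have h2 : u * (s * w) ∈ K := by
      apply hKmem
      · have : u * (s * w) = (u * w') * (w'⁻¹ * (s * w)) := by group
        rw [this]; exact H.mul_mem huw h
      · have e : 2 * m - 1 = (m - 1) + (1 + (m - 1)) := by omega
        rw [e, pow_add, pow_add, pow_one]
        exact Set.mul_mem_mul hu (Set.mul_mem_mul (Set.mem_insert_of_mem _ hs) hw)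
    have h3 : w'⁻¹ * (s * w) = (u * w')⁻¹ * (u * (s * w)) := by group
    rw [h3]; exact K.mul_mem (K.inv_mem h1) h2
  have hall : ∀ g : G, ∀ w ∈ U ^ (m - 1), ∀ w' ∈ U ^ (m - 1), w'⁻¹ * (g * w) ∈ H →
      w'⁻¹ * (g * w) ∈ K := by
    intro g
    have hg : g ∈ closure S := by rw [hgen]; trivial
    induction hg using closure_induction with
    | mem s hs => exact key s hs
    | one =>
      intro w hw w' hw' h
      rw [one_mul] at h ⊢
      obtain ⟨u, hu, huw⟩ := hret w'
      have h1 : u * w' ∈ K := by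
        apply hKmem _ huw
        apply hmono (m - 1 + (m - 1)) _ (by omega)
        rw [pow_add]; exact Set.mul_mem_mul hu hw'
      have h2 : u * w ∈ K := by
        apply hKmem
        · have : u * w = (u * w') * (w'⁻¹ * w) := by group
          rw [this]; exact H.mul_mem huw h
        · apply hmono (m - 1 + (m - 1)) _ (by omega)
          rw [pow_add]; exact Set.mul_mem_mul hu hw
      have h3 : w'⁻¹ * w = (u * w')⁻¹ * (u * w) := by group
      rw [h3]; exact K.mul_mem (K.inv_mem h1) h2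
    | mul a b _ _ ha hb =>
      intro w hw w' hw' h
      obtain ⟨v, hv, hvb⟩ := hrep (b * w)
      have h1 := hb w hw v hv hvb
      have h2 : w'⁻¹ * (a * v) ∈ K := by
        apply ha v hv w' hw'
        have : w'⁻¹ * (a * v) = (w'⁻¹ * (a * b * w)) * (v⁻¹ * (b * w))⁻¹ := by group
        rw [this]; exact H.mul_mem h (H.inv_mem hvb)
      have h3 : w'⁻¹ * (a * b * w) = (w'⁻¹ * (a * v)) * (v⁻¹ * (b * w)) := by group
      rw [h3]; exact K.mul_mem h2 h1
    | inv a _ ha =>
      intro w hw w' hw' h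
      have h1 : w⁻¹ * (a * w') ∈ K := by
        apply ha w' hw' w hw
        have : w⁻¹ * (a * w') = (w'⁻¹ * (a⁻¹ * w))⁻¹ := by group
        rw [this]; exact H.inv_mem h
      have h3 : w'⁻¹ * (a⁻¹ * w) = (w⁻¹ * (a * w'))⁻¹ := by group
      rw [h3]; exact K.inv_mem h1
  intro g hg
  have h1 : (1 : G) ∈ U ^ (m - 1) := by
    have := Set.pow_mem_pow (n := m - 1) h1U
    rwa [one_pow] at this
  have h2 := hall g 1 h1 1 h1 (by simpa using hg)
  simpa using h2

/-- the number of elements of length at most `N` is at most `(N + 1) |S ^ N|` -/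
lemma card_insert_le (S : Set G) (hS : S.Finite) (hne : S.Nonempty) (N : ℕ) :
    Nat.card ↥((insert 1 S) ^ N) ≤ (N + 1) * Nat.card ↥(S ^ N) := by
  have h1 : (insert 1 S) ^ N ⊆ ⋃ k ∈ Finset.range (N + 1), S ^ k := by
    induction N with
    | zero => intro x hx; simpa using hx
    | succ N ih =>
      rw [pow_succ]
      rintro _ ⟨a, ha, b, hb, rfl⟩
      have h2 := ih ha
      simp only [Set.mem_iUnion, Finset.mem_range] at h2 ⊢
      obtain ⟨k, hk, hk2⟩ := h2
      rcases hb with rfl | hb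
      · exact ⟨k, by omega, by simpa using hk2⟩
      · refine ⟨k + 1, by omega, ?_⟩
        rw [pow_succ]
        exact Set.mul_mem_mul hk2 hb
  have hmono : ∀ k ≤ N, (S ^ k).ncard ≤ (S ^ N).ncard := by
    intro k hk
    obtain ⟨s, hs⟩ := hne
    obtain ⟨d, rfl⟩ := Nat.exists_eq_add_of_le hk
    have h2 : (fun g : G => g * s ^ d) '' (S ^ k) ⊆ S ^ (k + d) := by
      rintro _ ⟨g, hg, rfl⟩
      rw [pow_add]
      exact Set.mul_mem_mul hg (Set.pow_mem_pow hs)
    have h3 := Set.ncard_le_ncard h2 (finite_pow S hS _)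
    rwa [Set.ncard_image_of_injective _ (mul_left_injective _)] at h3
  have hfin : (⋃ k ∈ Finset.range (N + 1), S ^ k).Finite :=
    Set.Finite.biUnion (Finset.finite_toSet _) (fun k _ => finite_pow S hS _)
  rw [Nat.card_coe_set_eq, Nat.card_coe_set_eq]
  refine (Set.ncard_le_ncard h1 hfin).trans ?_
  have h4 : (⋃ k ∈ Finset.range (N + 1), S ^ k).ncard ≤
      ∑ k ∈ Finset.range (N + 1), (S ^ k).ncard := by
    exact Finset.set_ncard_biUnion_le _ _
  refine h4.trans ((Finset.sum_le_card_nsmul _ _ _ (fun k hk => hmono k ?_)).trans ?_)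
  · have := Finset.mem_range.1 hk; omega
  · rw [Finset.card_range, smul_eq_mul]

end sub

end Pool.Agent.H746UG
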