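import Pool.Agent.H746UG.MetFinal
import Pool.Agent.H746UG.Sch
import Pool.Agent.H648R4.Nilp

/-!
Nilpotent-by-abelian groups and their finite extensions of bounded index.
-/

set_option autoImplicit false

namespace Pool.Agent.H746UG

open Filter Topology Subgroup
open scoped Pointwise

/-- `G'` is nilpotent or `G / G''` is not virtually nilpotent -/
def Tame (G : Type*) [Group G] : Prop :=
  Group.IsNilpotent (commutator G) ∨ ¬ Group.IsVirtuallyNilpotent (G ⧸ derivedSeries G 2)

lemma card_image_pow_le {G H : Type*} [Group G] [Group H] (f : G →* H) (S : Set G)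
    (hS : S.Finite) (n : ℕ) : Nat.card ↥((f '' S) ^ n) ≤ Nat.card ↥(S ^ n) := by
  have h1 : (f '' S) ^ n = f '' (S ^ n) := (Set.image_pow f S n).symm
  rw [h1, Nat.card_coe_set_eq, Nat.card_coe_set_eq]
  exact Set.ncard_image_le (finite_pow S hS n)

lemma not_vn_sub {G : Type*} [Group G] (H : Subgroup G) [H.FiniteIndex]
    (h : ¬ Group.IsVirtuallyNilpotent G) : ¬ Group.IsVirtuallyNilpotent H := by
  rintro ⟨N, hN, hfi⟩
  apply h
  refine ⟨N.map H.subtype, ?_, ?_⟩
  · exact Group.isNilpotent_congr (N.equivMapOfInjective H.subtype H.subtype_injective) |>.1 hN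
  · constructor
    rw [Subgroup.index_map_subtype]
    exact mul_ne_zero hfi.index_ne_zero FiniteIndex.index_ne_zero

theorem tame_gap {G : Type*} [Group G] (S : Set G) (hS : S.Finite)
    (hgen : Subgroup.closure S = ⊤) (ht : Tame G) (hnv : ¬ Group.IsVirtuallyNilpotent G) :
    ∃ μ : ℂ, μ ≠ 0 ∧ (∀ m > 0, μ ^ m ≠ 1) ∧
      ∀ n, Nat.card (DS μ n) ≤ Nat.card ↥(S ^ n) ^ 3 := by
  have hq : ¬ Group.IsVirtuallyNilpotent (G ⧸ derivedSeries G 2) := by
    rcases ht with ht | ht
    · rintro ⟨H, hHn, hHf⟩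
      apply hnv
      obtain ⟨c, hc⟩ := (commutator G).isNilpotent_iff_lowerCentralSeries.1 ht
      obtain ⟨L, hL1, hL2⟩ := Pool.Agent.H648R4.virt_of_quot hc ⟨H, hHf, hHn⟩
      exact ⟨L, hL2, hL1⟩
    · exact ht
  let π := QuotientGroup.mk' (derivedSeries G 2)
  have hπ : Function.Surjective π := QuotientGroup.mk'_surjective _
  have hmet : derivedSeries (G ⧸ derivedSeries G 2) 2 = ⊥ := by
    rw [← map_derivedSeries_eq hπ 2, Subgroup.map_eq_bot_iff, QuotientGroup.ker_mk']
  have hgen' : Subgroup.closure (π '' S) = ⊤ := by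
    rw [← MonoidHom.map_closure, hgen, ← MonoidHom.range_eq_map, MonoidHom.range_eq_top.2 hπ]
  obtain ⟨μ, h0, h1, h2⟩ := met_gap (π '' S) (hS.image π) hgen' hmet hq
  exact ⟨μ, h0, h1, fun n => (h2 n).trans (Nat.pow_le_pow_left (card_image_pow_le π S hS n) 3)⟩

theorem index_gap {G : Type*} [Group G] (S : Set G) (hS : S.Finite)
    (hgen : Subgroup.closure S = ⊤) (hnv : ¬ Group.IsVirtuallyNilpotent G)
    (H : Subgroup G) [H.FiniteIndex] (ht : Tame H) :
    ∃ μ : ℂ, μ ≠ 0 ∧ (∀ m > 0, μ ^ m ≠ 1) ∧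
      ∀ n, Nat.card (DS μ n) ≤
        (((2 * H.index - 1) * n + 1) * Nat.card ↥(S ^ ((2 * H.index - 1) * n))) ^ 3 := by
  set L := 2 * H.index - 1 with hL
  let T : Set H := {t | (t : G) ∈ (insert 1 S) ^ L}
  have hUf : (insert 1 S : Set G).Finite := hS.insert 1
  have hT : T.Finite := by
    have : T = (fun t : H => (t : G)) ⁻¹' ((insert 1 S) ^ L) := rfl
    rw [this]
    exact (finite_pow _ hUf L).preimage Subtype.val_injective.injOn
  have hTgen : Subgroup.closure T = ⊤ := by
    have h1 : (Subgroup.closure T).map H.subtype = (⊤ : Subgroup H).map H.subtype := by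
      rw [MonoidHom.map_closure, ← MonoidHom.range_eq_map, H.range_subtype]
      apply le_antisymm
      · rw [Subgroup.closure_le]
        rintro _ ⟨t, _, rfl⟩
        exact t.2
      · refine (schreier_pos S hgen H).trans (Subgroup.closure_mono ?_)
        rintro g ⟨hg1, hg2⟩
        exact ⟨⟨g, hg1⟩, hg2, rfl⟩
    exact Subgroup.map_injective H.subtype_injective h1
  have hne : S.Nonempty := by
    rcases Set.eq_empty_or_nonempty S with h | h
    · exfalso
      apply hnv
      rw [h, Subgroup.closure_empty] at hgen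
      have : Subsingleton G := by
        refine ⟨fun a b => ?_⟩
        have ha : a ∈ (⊥ : Subgroup G) := by rw [hgen]; trivial
        have hb : b ∈ (⊥ : Subgroup G) := by rw [hgen]; trivial
        rw [Subgroup.mem_bot.1 ha, Subgroup.mem_bot.1 hb]
      exact Group.IsNilpotent.isVirtuallyNilpotent inferInstance
    · exact h
  obtain ⟨μ, h0, h1, h2⟩ := tame_gap T hT hTgen ht (not_vn_sub H hnv)
  refine ⟨μ, h0, h1, fun n => (h2 n).trans (Nat.pow_le_pow_left ?_ 3)⟩
  have h3 : Nat.card ↥(T ^ n) ≤ Nat.card ↥((insert 1 S) ^ (L * n)) := by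
    rw [Nat.card_coe_set_eq, Nat.card_coe_set_eq,
      ← Set.ncard_image_of_injective (T ^ n) Subtype.val_injective]
    apply Set.ncard_le_ncard _ (finite_pow _ hUf _)
    have h4 : (Subtype.val '' (T ^ n) : Set G) = (H.subtype '' T) ^ n := Set.image_pow H.subtype T n
    rw [h4, pow_mul]
    apply Set.pow_subset_pow_left
    rintro _ ⟨t, ht, rfl⟩
    exact ht
  exact h3.trans (card_insert_le S hS hne (L * n))

lemma index_rate {G : Type*} [Group G] (S : Set G) (hne : ∀ n, 0 < Nat.card ↥(S ^ n)) (x : ℂ)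
    (hx : x ≠ 0) (L : ℕ) (hL : 0 < L)
    (h : ∀ n, Nat.card ↥(digitSums x n) ≤ ((L * n + 1) * Nat.card ↥(S ^ (L * n))) ^ 3) :
    eta x / (3 * L) ≤ rho S := by
  have hL' : (0 : ℝ) < L := by exact_mod_cast hL
  have h1 : Tendsto (fun n : ℕ => Real.log (Nat.card ↥(digitSums x n)) / n / (3 * L)) atTop
      (𝓝 (eta x / (3 * L))) := (tendsto_eta x hx).div_const _
  have h2 : Tendsto (fun n : ℕ => Real.log (Nat.card ↥(S ^ (L * n))) / ((L * n : ℕ) : ℝ)) atTop
      (𝓝 (rho S)) := (tendsto_rho S).comp (tendsto_id.const_mul_atTop' hL)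
  have h3 : Tendsto (fun n : ℕ => Real.log ((L * n : ℕ) + 1 : ℝ) / ((L * n : ℕ) : ℝ)) atTop
      (𝓝 0) := by
    have h4 : Tendsto (fun n : ℕ => Real.log ((n : ℝ) + 1) / (n : ℝ)) atTop (𝓝 0) := by
      have h41 : Tendsto (fun n : ℕ => Real.log ((n : ℝ) + 1) / ((n : ℝ) + 1)) atTop (𝓝 0) :=
        (Real.isLittleO_log_id_atTop.tendsto_div_nhds_zero).comp
          (tendsto_natCast_atTop_atTop.atTop_add tendsto_const_nhds)
      have h42 : Tendsto (fun n : ℕ => 1 + 1 / (n : ℝ)) atTop (𝓝 (1 + 0)) :=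
        tendsto_const_nhds.add tendsto_one_div_atTop_nhds_zero_nat
      have h43 := h41.mul h42
      rw [zero_mul] at h43
      refine h43.congr' ?_
      filter_upwards [eventually_gt_atTop 0] with n hn
      have h44 : (0 : ℝ) < n := by exact_mod_cast hn
      field_simp
    exact h4.comp (tendsto_id.const_mul_atTop' hL)
  have h5 := h2.add h3
  rw [add_zero] at h5
  refine le_of_tendsto_of_tendsto' h1 h5 ?_
  intro n
  rcases Nat.eq_zero_or_pos n with h0 | h0
  · subst h0; simp
  have hn : (0 : ℝ) < n := by exact_mod_cast h0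
  have h6 : (0 : ℝ) < Nat.card ↥(digitSums x n) := by
    rw [← DS_eq_digitSums]; exact_mod_cast DS_pos x n
  have h7 : Real.log (Nat.card ↥(digitSums x n)) ≤
      3 * (Real.log ((L * n : ℕ) + 1 : ℝ) + Real.log (Nat.card ↥(S ^ (L * n)))) := by
    have h8 : (0 : ℝ) < Nat.card ↥(S ^ (L * n)) := by exact_mod_cast hne _
    have h9 : Real.log (Nat.card ↥(digitSums x n)) ≤
        Real.log (((((L * n : ℕ) : ℝ) + 1) * (Nat.card ↥(S ^ (L * n)) : ℝ)) ^ 3) := by
      apply Real.log_le_log h6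
      exact_mod_cast h n
    rw [Real.log_pow, Real.log_mul (by positivity) h8.ne'] at h9
    exact_mod_cast h9
  rw [div_div, ← add_div, div_le_div_iff₀ (by positivity) (by push_cast; positivity)]
  push_cast
  have h10 : 0 < (L : ℝ) * n := by positivity
  push_cast at h7
  nlinarith

lemma nonempty_of_not_vn {G : Type*} [Group G] (S : Set G)
    (hgen : Subgroup.closure S = ⊤) (hnv : ¬ Group.IsVirtuallyNilpotent G) : S.Nonempty := by
  rcases Set.eq_empty_or_nonempty S with h | h
  · exfalso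
    apply hnv
    rw [h, Subgroup.closure_empty] at hgen
    have : Subsingleton G := by
      refine ⟨fun a b => ?_⟩
      have ha : a ∈ (⊥ : Subgroup G) := by rw [hgen]; trivial
      have hb : b ∈ (⊥ : Subgroup G) := by rw [hgen]; trivial
      rw [Subgroup.mem_bot.1 ha, Subgroup.mem_bot.1 hb]
    exact Group.IsNilpotent.isVirtuallyNilpotent inferInstance
  · exact h

lemma card_pow_pos {G : Type*} [Group G] (S : Set G) (hS : S.Finite)
    (hgen : Subgroup.closure S = ⊤) (hnv : ¬ Group.IsVirtuallyNilpotent G) (n : ℕ) :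
    0 < Nat.card ↥(S ^ n) := by
  obtain ⟨s, hs⟩ := nonempty_of_not_vn S hgen hnv
  have h1 : Finite ↥(S ^ n) := finite_pow S hS n
  have h2 : Nonempty ↥(S ^ n) := ⟨⟨s ^ n, Set.pow_mem_pow hs⟩⟩
  exact Nat.card_pos

lemma tame_of_metabelian {G : Type*} [Group G] (h : derivedSeries G 2 = ⊥) : Tame G := by
  left
  have h4 : ⁅commutator G, commutator G⁆ = ⊥ := by
    rw [← h, derivedSeries_succ, derivedSeries_one]
  rw [(commutator G).isNilpotent_iff_lowerCentralSeries]
  exact ⟨1, h4⟩

lemma tame_top {G : Type*} [Group G] (h : derivedSeries G 2 = ⊥) : Tame (⊤ : Subgroup G) := by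
  apply tame_of_metabelian
  have h1 : (derivedSeries (⊤ : Subgroup G) 2).map (⊤ : Subgroup G).subtype = ⊥ := by
    rw [eq_bot_iff, ← h]
    exact map_derivedSeries_le_derivedSeries _ 2
  rw [Subgroup.map_eq_bot_iff, Subgroup.ker_subtype, le_bot_iff] at h1
  exact h1

end Pool.Agent.H746UG
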