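import Pool.Agent.H746UG.JN

set_option autoImplicit false
set_option linter.unusedSectionVars false

namespace Pool.Agent.H746UG

open Subgroup
open scoped IsMulCommutative commutatorElement

lemma ev_map {G G' : Type*} [Group G] [Group G'] (f : G →* G') (X Y : G) (w : List Bool) :
    f (ev X Y w) = ev (f X) (f Y) w := by
  induction w with
  | nil => simp [ev]
  | cons b w ih =>
    rw [ev_cons, ev_cons, map_mul, ih]
    cases b <;> simp

lemma freePair_of_map {G G' : Type*} [Group G] [Group G'] (f : G →* G') {X Y : G}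
    (h : FreePair (f X) (f Y)) : FreePair X Y := by
  intro u v huv
  apply h
  rw [← ev_map, ← ev_map, huv]

lemma center_fi {Q Q' : Type*} [Group Q] [Group Q'] (f : Q →* Q') (hf : Function.Surjective f)
    [FiniteIndex (center Q)] : FiniteIndex (center Q') := by
  have h1 : ((center Q).map f).index ≠ 0 := by
    have h2 := Subgroup.index_map_dvd (center Q) hf
    exact ne_zero_of_dvd_ne_zero FiniteIndex.index_ne_zero h2
  have h3 : (center Q).map f ≤ center Q' := by
    rintro _ ⟨z, hz, rfl⟩
    rw [mem_center_iff]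
    intro g
    obtain ⟨g, rfl⟩ := hf g
    rw [← map_mul, ← map_mul, mem_center_iff.mp hz]
  exact ⟨fun h => h1 (Nat.eq_zero_of_zero_dvd (h ▸ Subgroup.index_dvd_of_le h3))⟩

variable {G : Type*} [Group G] (N : Subgroup G) [N.Normal] [hN : IsMulCommutative N]

lemma phi_comm (r : MonoidAlgebra ℤ (center (G ⧸ N))) (g : G) (a : Additive N) :
    phi N r (th N g a) = th N g (phi N r a) := by
  induction r using MonoidAlgebra.induction_on with
  | of z =>
    rw [phi_of, ← thQ_mk, ← Module.End.mul_apply, ← Module.End.mul_apply, ← map_mul, ← map_mul,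
      mem_center_iff.mp z.2]
  | add x y hx hy => rw [map_add, LinearMap.add_apply, LinearMap.add_apply, hx, hy, map_add]
  | smul n x hx => rw [map_zsmul, LinearMap.smul_apply, LinearMap.smul_apply, hx, map_zsmul]

/-- subgroup of `Additive N` given by a subgroup of `G` -/
def subZ (B : Subgroup G) : Submodule ℤ (Additive N) :=
  AddSubgroup.toIntSubmodule
    { carrier := {a | val N a ∈ B}
      add_mem' := fun {a b} ha hb => by
        show val N (a + b) ∈ B
        rw [val_add]; exact mul_mem ha hb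
      zero_mem' := by
        show val N 0 ∈ B
        rw [val_zero]; exact one_mem _
      neg_mem' := fun {a} ha => by
        show val N (-a) ∈ B
        rw [val_neg]; exact inv_mem ha }

lemma mem_subZ (B : Subgroup G) (a : Additive N) : a ∈ subZ N B ↔ val N a ∈ B := Iff.rfl

/-- the quotient by `W` is finitely generated -/
def FGm (W : Submodule ℤ (Additive N)) : Prop :=
  ∃ T : Set (Additive N), T.Finite ∧ Submodule.span ℤ T ⊔ W = ⊤

lemma subZ_smul (B : Subgroup G) (hB : B.Normal) (r : RR N) (a : Additive N)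
    (ha : a ∈ subZ N B) : r • a ∈ subZ N B := by
  revert r
  apply RR_induct
  · intro z
    obtain ⟨g, hg⟩ := QuotientGroup.mk_surjective (z : G ⧸ N)
    have hz : (QuotientGroup.mk g : G ⧸ N) ∈ center (G ⧸ N) := hg ▸ z.2
    have h1 : z = ⟨QuotientGroup.mk g, hz⟩ := Subtype.ext hg.symm
    rw [h1, qq_smul, mem_subZ, val_th]
    exact hB.conj_mem _ ha g
  · intro x y hx hy
    rw [add_smul]; exact add_mem hx hy
  · intro n x hx
    rw [smul_assoc]; exact (subZ N B).smul_mem n hx

/-- the `RR`-submodule given by a normal subgroup -/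
noncomputable def subR (B : Subgroup G) (hB : B.Normal) : Submodule (RR N) (Additive N) where
  carrier := {a | a ∈ subZ N B}
  add_mem' := fun ha hb => (subZ N B).add_mem ha hb
  zero_mem' := (subZ N B).zero_mem
  smul_mem' := fun r a ha => subZ_smul N B hB r a ha

lemma jn_of_max (hmax : ∀ B : Subgroup G, B.Normal → B ≤ N → B ≠ ⊥ → FGm N (subZ N B))
    (hNfg : ¬ N.FG) : ∀ r, phi N r = 0 ∨ Function.Injective (phi N r) := by
  intro r
  by_contra hcon
  push Not at hcon
  obtain ⟨h1, h2⟩ := hcon
  apply hNfg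
  -- kernel and image
  let K : Subgroup G :=
    { carrier := {x | ∃ a : Additive N, phi N r a = 0 ∧ val N a = x}
      mul_mem' := by
        rintro x y ⟨a, ha, rfl⟩ ⟨b, hb, rfl⟩
        exact ⟨a + b, by rw [map_add, ha, hb, add_zero], val_add a b⟩
      one_mem' := ⟨0, map_zero _, val_zero⟩
      inv_mem' := by
        rintro x ⟨a, ha, rfl⟩
        exact ⟨-a, by rw [map_neg, ha, neg_zero], val_neg a⟩ }
  let I : Subgroup G :=
    { carrier := {x | ∃ a : Additive N, val N (phi N r a) = x}
      mul_mem' := by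
        rintro x y ⟨a, rfl⟩ ⟨b, rfl⟩
        exact ⟨a + b, by rw [map_add, val_add]⟩
      one_mem' := ⟨0, by rw [map_zero, val_zero]⟩
      inv_mem' := by
        rintro x ⟨a, rfl⟩
        exact ⟨-a, by rw [map_neg, val_neg]⟩ }
  have hK : FGm N (subZ N K) := by
    apply hmax
    · refine ⟨?_⟩
      rintro x ⟨a, ha, rfl⟩ g
      exact ⟨th N g a, by rw [phi_comm, ha, map_zero], val_th g a⟩
    · rintro x ⟨a, ha, rfl⟩
      exact val_mem a
    · intro h
      apply h2
      rw [← LinearMap.ker_eq_bot, LinearMap.ker_eq_bot']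
      intro a ha
      have h3 : val N a ∈ K := ⟨a, ha, rfl⟩
      rw [h, mem_bot] at h3
      exact val_inj (h3.trans val_zero.symm)
  have hI : FGm N (subZ N I) := by
    apply hmax
    · refine ⟨?_⟩
      rintro x ⟨a, rfl⟩ g
      exact ⟨th N g a, by rw [phi_comm, val_th]⟩
    · rintro x ⟨a, rfl⟩
      exact val_mem _
    · intro h
      apply h1
      apply LinearMap.ext
      intro a
      have h3 : val N (phi N r a) ∈ I := ⟨a, rfl⟩
      rw [h, mem_bot] at h3
      exact val_inj (h3.trans val_zero.symm)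
  obtain ⟨T, hT, hTK⟩ := hK
  obtain ⟨T', hT', hTI⟩ := hI
  apply fg_of_finite
  refine ⟨?_⟩
  rw [← hTI]
  refine (Submodule.fg_span hT').sup ?_
  have h4 : subZ N I = Submodule.span ℤ ((phi N r) '' T) := by
    apply le_antisymm
    · rintro b ⟨a, ha⟩
      have hb : phi N r a = b := val_inj ha
      have h5 : a ∈ Submodule.span ℤ T ⊔ subZ N K := by rw [hTK]; exact Submodule.mem_top
      obtain ⟨t, ht, k, hk, hak⟩ := Submodule.mem_sup.mp h5
      obtain ⟨k', hk', hkk⟩ := hk
      have h6 : k = k' := (val_inj hkk).symm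
      rw [← hb, ← hak, map_add, h6, hk', add_zero, ← Submodule.map_span]
      exact ⟨t, ht, rfl⟩
    · rw [Submodule.span_le]
      rintro _ ⟨a, _, rfl⟩
      exact ⟨a, rfl⟩
  rw [h4]
  exact Submodule.fg_span (hT.image _)

theorem noeth_core [FiniteIndex (center (G ⧸ N))] [Group.FG G]
    (S : Set G) (hgen : Subgroup.closure S = ⊤)
    (E : Set G) (hE : E.Finite) (hNE : N = normalClosure E) (hNfg : ¬ N.FG) :
    ∃ s ∈ S, ∃ t ∈ S, FreePair (s * t) (t * s) ∨ FreePair (s * s * t) (s * t * s) := by
  -- Noetherian module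
  have hnoethR := RR_noetherian N
  have hfinR := mod_finite N E hE hNE
  have hnoeth : IsNoetherian (RR N) (Additive N) := isNoetherian_of_isNoetherianRing_of_finite _ _
  -- a maximal bad subgroup
  let bad : Set (Submodule (RR N) (Additive N)) :=
    {W | ∃ B : Subgroup G, ∃ hB : B.Normal, B ≤ N ∧ ¬ FGm N (subZ N B) ∧ W = subR N B hB}
  have hbad : bad.Nonempty := by
    refine ⟨_, ⊥, inferInstance, bot_le, ?_, rfl⟩
    rintro ⟨T, hT, hTt⟩
    apply hNfg
    apply fg_of_finite
    refine ⟨?_⟩
    have h1 : subZ N ⊥ = ⊥ := by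
      rw [eq_bot_iff]
      intro a ha
      rw [mem_subZ, mem_bot] at ha
      exact (Submodule.mem_bot ℤ).mpr (val_inj (ha.trans val_zero.symm))
    rw [h1, sup_bot_eq] at hTt
    rw [← hTt]
    exact Submodule.fg_span hT
  obtain ⟨W0, ⟨B0, hB0, hB0N, hB0bad, rfl⟩, hmax⟩ :=
    (set_has_maximal_iff_noetherian.mpr hnoeth) bad hbad
  -- the quotient group
  let π : G →* G ⧸ B0 := QuotientGroup.mk' B0
  have hπ : Function.Surjective π := QuotientGroup.mk'_surjective B0
  let N1 : Subgroup (G ⧸ B0) := N.map π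
  have hN1n : N1.Normal := Subgroup.Normal.map inferInstance π hπ
  have hN1c : IsMulCommutative N1 := by
    refine ⟨⟨?_⟩⟩
    rintro ⟨_, a, ha, rfl⟩ ⟨_, b, hb, rfl⟩
    apply Subtype.ext
    show π a * π b = π b * π a
    rw [← map_mul, ← map_mul, comm_of_mem (N := N) ha hb]
  have hfi : FiniteIndex (center ((G ⧸ B0) ⧸ N1)) := by
    refine center_fi (QuotientGroup.map N N1 π (Subgroup.le_comap_map _ _)) ?_
    intro x
    obtain ⟨x, rfl⟩ := QuotientGroup.mk_surjective x
    obtain ⟨x, rfl⟩ := hπ x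
    exact ⟨QuotientGroup.mk x, rfl⟩
  -- the additive projection
  let ρ : Additive N →ₗ[ℤ] Additive N1 :=
    (AddMonoidHom.mk' (fun a => el N1 (π (val N a)) ⟨val N a, val_mem a, rfl⟩) (by
      intro a b
      apply val_inj
      show π (val N a * val N b) = π (val N a) * π (val N b)
      exact map_mul π _ _)).toIntLinearMap
  have hρ : ∀ a, val N1 (ρ a) = π (val N a) := fun a => rfl
  have hρs : Function.Surjective ρ := by
    intro b
    obtain ⟨x, hx, hxb⟩ := val_mem b
    exact ⟨el N x hx, val_inj (by rw [hρ, val_el, hxb])⟩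
  have hN1fg : ¬ N1.FG := by
    intro h
    have h1 := finite_of_fg N1 h
    obtain ⟨T, hT⟩ := h1
    apply hB0bad
    classical
    have h2 : ∃ T' : Set (Additive N), T'.Finite ∧ ρ '' T' = (T : Set (Additive N1)) := by
      refine ⟨(Function.surjInv hρs) '' T, T.finite_toSet.image _, ?_⟩
      rw [Set.image_image]
      simp [Function.surjInv_eq hρs]
    obtain ⟨T', hT', hTT⟩ := h2
    refine ⟨T', hT', ?_⟩
    rw [eq_top_iff]
    intro a _
    have h3 : ρ a ∈ (Submodule.span ℤ T').map ρ := by
      rw [Submodule.map_span, hTT, hT]; exact Submodule.mem_top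
    obtain ⟨t, ht, hta⟩ := h3
    refine Submodule.mem_sup.mpr ⟨t, ht, a - t, ?_, by abel⟩
    rw [mem_subZ, val_sub]
    have h4 : π (val N t) = π (val N a) := by
      rw [← hρ, ← hρ, hta]
    rw [← QuotientGroup.eq_one_iff]
    show π (val N a * (val N t)⁻¹) = 1
    rw [map_mul, map_inv, h4, mul_inv_cancel]
  have hN1ne : Nontrivial (Additive N1) := by
    by_contra hcon
    rw [not_nontrivial_iff_subsingleton] at hcon
    apply hN1fg
    apply fg_of_finite
    infer_instance
  have hmax1 : ∀ B : Subgroup (G ⧸ B0), B.Normal → B ≤ N1 → B ≠ ⊥ → FGm N1 (subZ N1 B) := by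
    intro B hB hBN hBne
    have hB' : (B.comap π).Normal := hB.comap π
    have hker : B0 ≤ B.comap π := by
      intro x hx
      show π x ∈ B
      have : π x = 1 := (QuotientGroup.eq_one_iff x).mpr hx
      rw [this]; exact one_mem _
    have hB'N : B.comap π ≤ N := by
      intro x hx
      obtain ⟨n, hn, hnx⟩ := hBN hx
      have h1 : π (n⁻¹ * x) = 1 := by rw [map_mul, map_inv, hnx, inv_mul_cancel]
      have h2 : n⁻¹ * x ∈ B0 := (QuotientGroup.eq_one_iff _).mp h1
      have : x = n * (n⁻¹ * x) := by group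
      rw [this]; exact mul_mem hn (hB0N h2)
    have hlt : subR N B0 hB0 < subR N (B.comap π) hB' := by
      refine lt_of_le_of_ne (fun a ha => hker ha) ?_
      intro heq
      apply hBne
      rw [eq_bot_iff]
      intro y hy
      obtain ⟨x, rfl⟩ := hπ y
      have h1 : el N x (hB'N hy) ∈ subR N (B.comap π) hB' := hy
      rw [← heq] at h1
      have h2 : x ∈ B0 := h1
      exact (QuotientGroup.eq_one_iff x).mpr h2
    have hgood : FGm N (subZ N (B.comap π)) := by
      by_contra hb
      exact hmax _ ⟨B.comap π, hB', hB'N, hb, rfl⟩ hlt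
    obtain ⟨T, hT, hTt⟩ := hgood
    refine ⟨ρ '' T, hT.image _, ?_⟩
    rw [eq_top_iff]
    intro b _
    obtain ⟨a, rfl⟩ := hρs b
    have h1 : a ∈ Submodule.span ℤ T ⊔ subZ N (B.comap π) := by rw [hTt]; exact Submodule.mem_top
    obtain ⟨t, ht, k, hk, rfl⟩ := Submodule.mem_sup.mp h1
    rw [map_add, ← Submodule.map_span]
    exact Submodule.mem_sup.mpr ⟨ρ t, ⟨t, ht, rfl⟩, ρ k, hk, rfl⟩
  have hgen1 : Subgroup.closure (π '' S) = ⊤ := by
    rw [← MonoidHom.map_closure, hgen, ← MonoidHom.range_eq_map,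
      MonoidHom.range_eq_top_of_surjective π hπ]
  have hN1E : N1 = normalClosure (π '' E) := by
    show N.map π = _
    rw [hNE]
    exact Subgroup.map_normalClosure E π hπ
  obtain ⟨_, ⟨s, hs, rfl⟩, _, ⟨t, ht, rfl⟩, h⟩ :=
    jn_core N1 (jn_of_max N1 hmax1 hN1fg) (π '' S) hgen1 (π '' E) (hE.image _) hN1E hN1fg
  refine ⟨s, hs, t, ht, ?_⟩
  rcases h with h | h
  · left
    apply freePair_of_map π
    rwa [map_mul, map_mul]
  · right
    apply freePair_of_map π
    rwa [map_mul, map_mul, map_mul, map_mul]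

end Pool.Agent.H746UG
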