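import Pool.Agent.H746UG.Main

set_option autoImplicit false
set_option linter.unusedSectionVars false

namespace Pool.Agent.H746UG

open Subgroup Filter Topology
open scoped IsMulCommutative commutatorElement Pointwise

variable {G : Type*} [Group G]

/-- the exponential growth rate `ρ_S = lim (log |S ^ n|) / n` -/
noncomputable def rho (S : Set G) : ℝ :=
  limUnder atTop (fun n : ℕ => Real.log (Nat.card ↥(S ^ n)) / n)

lemma subadd (S : Set G) : Subadditive (fun n : ℕ => Real.log (Nat.card ↥(S ^ n))) := by
  intro m n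
  have h := card_pow_add S m n
  rcases Nat.eq_zero_or_pos (Nat.card ↥(S ^ (m + n))) with h0 | h0
  · show Real.log (Nat.card ↥(S ^ (m + n))) ≤ _
    rw [h0]
    simp only [Nat.cast_zero, Real.log_zero]
    have h1 := Real.log_natCast_nonneg (Nat.card ↥(S ^ m))
    have h2 := Real.log_natCast_nonneg (Nat.card ↥(S ^ n))
    exact add_nonneg h1 h2
  · have hm : 0 < Nat.card ↥(S ^ m) := Nat.pos_of_ne_zero (fun h1 => by
      rw [h1, Nat.zero_mul] at h; omega)
    have hn : 0 < Nat.card ↥(S ^ n) := Nat.pos_of_ne_zero (fun h1 => by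
      rw [h1, Nat.mul_zero] at h; omega)
    show Real.log (Nat.card ↥(S ^ (m + n))) ≤
      Real.log (Nat.card ↥(S ^ m)) + Real.log (Nat.card ↥(S ^ n))
    rw [← Real.log_mul (by exact_mod_cast hm.ne') (by exact_mod_cast hn.ne')]
    apply Real.log_le_log (by exact_mod_cast h0)
    exact_mod_cast h

lemma tendsto_rho (S : Set G) :
    Tendsto (fun n : ℕ => Real.log (Nat.card ↥(S ^ n)) / n) atTop (𝓝 (rho S)) := by
  have h := (subadd S).tendsto_lim (by
    refine ⟨0, ?_⟩
    rintro _ ⟨n, rfl⟩
    exact div_nonneg (Real.log_natCast_nonneg _) (Nat.cast_nonneg n))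
  have h2 : rho S = (subadd S).lim := h.limUnder_eq
  rw [h2]
  exact h

lemma rho_ge (S : Set G) (h : ∀ n, 2 ^ n ≤ Nat.card ↥(S ^ n) ^ 3) :
    Real.log 2 / 3 ≤ rho S := by
  refine ge_of_tendsto (tendsto_rho S) ?_
  filter_upwards [eventually_gt_atTop 0] with n hn
  have h1 := h n
  have h2 : 0 < Nat.card ↥(S ^ n) := Nat.pos_of_ne_zero (fun h3 => by
    rw [h3] at h1
    simp at h1)
  have h3 : Real.log ((2 : ℝ) ^ n) ≤ Real.log ((Nat.card ↥(S ^ n) : ℝ) ^ 3) := by
    apply Real.log_le_log (by positivity)
    exact_mod_cast h1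
  rw [Real.log_pow, Real.log_pow] at h3
  have hn' : (0 : ℝ) < n := by exact_mod_cast hn
  rw [div_le_div_iff₀ (by norm_num) hn']
  push_cast at h3
  linarith

lemma rho_ge_of_pair (S : Set G) (hS : S.Finite) (h : HasPair S) : Real.log 2 / 3 ≤ rho S :=
  rho_ge S (growth S hS h)

lemma center_nilp : Group.IsNilpotent (center G) := by
  have h : IsMulCommutative (center G) := inferInstance
  exact CommGroup.isNilpotent

lemma map_comm (N : Subgroup G) [N.Normal] :
    (commutator G).map (QuotientGroup.mk' N) = commutator (G ⧸ N) := by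
  rw [commutator_def, commutator_def, Subgroup.map_commutator, ← MonoidHom.range_eq_map,
    MonoidHom.range_eq_top_of_surjective _ (QuotientGroup.mk'_surjective _)]

lemma comm_quot : commutator (G ⧸ commutator G) = ⊥ := by
  rw [← map_comm]
  rw [eq_bot_iff]
  rintro _ ⟨x, hx, rfl⟩
  exact (QuotientGroup.eq_one_iff x).mpr hx

/-- polynomial growth when the derived subgroup is finite -/
lemma card_le_of_finite (S : Set G) (hS : S.Finite) (hfin : Finite (commutator G)) (n : ℕ) :
    Nat.card ↥(S ^ n) ≤ (n + 1) ^ (Nat.card S) * Nat.card (commutator G) := by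
  classical
  have hSf : Fintype S := hS.fintype
  -- exponents
  have hexp : ∀ k : ℕ, ∀ x ∈ S ^ k, ∃ e : S → ℕ, (∀ s, e s ≤ k) ∧
      (Abelianization.of x : Abelianization G) = ∏ s : S, Abelianization.of (s : G) ^ e s := by
    intro k
    induction k with
    | zero =>
      intro x hx
      refine ⟨fun _ => 0, fun _ => le_rfl, ?_⟩
      rw [pow_zero, Set.mem_one] at hx
      simp [hx]
    | succ k ih =>
      intro x hx
      rw [pow_succ] at hx
      obtain ⟨y, hy, s, hs, rfl⟩ := Set.mem_mul.mp hx
      obtain ⟨e, he, hye⟩ := ih y hy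
      refine ⟨fun t => e t + if t = ⟨s, hs⟩ then 1 else 0, ?_, ?_⟩
      · intro t
        have := he t
        dsimp only
        split_ifs <;> omega
      · rw [map_mul, hye]
        simp only [pow_add, Finset.prod_mul_distrib]
        congr 1
        rw [Finset.prod_eq_single (⟨s, hs⟩ : S)]
        · simp
        · intro t _ ht
          simp [ht]
        · intro h
          exact absurd (Finset.mem_univ _) h
  choose! e he hxe using hexp n
  have hsurj : ∀ z : Abelianization G, ∃ g : G, Abelianization.of g = z := fun z =>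
    QuotientGroup.mk_surjective z
  choose L hL using hsurj
  let f : ↥(S ^ n) → (S → Fin (n + 1)) × commutator G := fun x =>
    (fun s => ⟨e x s, Nat.lt_succ_of_le (he x x.2 s)⟩,
      ⟨x * (L (∏ s : S, Abelianization.of (s : G) ^ e x s))⁻¹, by
        rw [← Abelianization.ker_of, MonoidHom.mem_ker, map_mul, map_inv, hL, hxe x x.2,
          mul_inv_cancel]⟩)
  have hf : Function.Injective f := by
    intro x y hxy
    have h1 : ∀ s, e x s = e y s := by
      intro s
      have := congrFun (congrArg Prod.fst hxy) s
      exact congrArg Fin.val this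
    have h2 : (x : G) * (L (∏ s : S, Abelianization.of (s : G) ^ e x s))⁻¹ =
        y * (L (∏ s : S, Abelianization.of (s : G) ^ e y s))⁻¹ :=
      congrArg (fun z => ((Prod.snd z : commutator G) : G)) hxy
    have h3 : (∏ s : S, (Abelianization.of (s : G) : Abelianization G) ^ e x s) =
        ∏ s : S, Abelianization.of (s : G) ^ e y s :=
      Finset.prod_congr rfl (fun s _ => by rw [h1 s])
    rw [h3] at h2
    exact Subtype.ext (mul_right_cancel h2)
  have h := Nat.card_le_card_of_injective f hf
  rw [Nat.card_prod, Nat.card_fun, Nat.card_fin] at h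
  exact h

lemma rho_zero (S : Set G) (hS : S.Finite) (hfin : Finite (commutator G)) : rho S = 0 := by
  refine tendsto_nhds_unique (tendsto_rho S) ?_
  have h1 : Tendsto (fun n : ℕ => (Nat.card S * Real.log (n + 1) +
      Real.log (Nat.card (commutator G))) / (n : ℝ)) atTop (𝓝 0) := by
    have h2 : Tendsto (fun n : ℕ => Real.log ((n : ℝ) + 1) / (n : ℝ)) atTop (𝓝 0) := by
      have h3 : Tendsto (fun x : ℝ => Real.log x / x) atTop (𝓝 0) := by
        have := Real.isLittleO_log_id_atTop.tendsto_div_nhds_zero
        simpa using this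
      have h4 : Tendsto (fun n : ℕ => (n : ℝ) + 1) atTop atTop :=
        tendsto_atTop_add_const_right _ _ tendsto_natCast_atTop_atTop
      have h5 := h3.comp h4
      have h6 : Tendsto (fun n : ℕ => ((n : ℝ) + 1) / n) atTop (𝓝 1) := by
        have h7 : Tendsto (fun n : ℕ => (1 : ℝ) + 1 / n) atTop (𝓝 (1 + 0)) :=
          tendsto_const_nhds.add tendsto_one_div_atTop_nhds_zero_nat
        rw [add_zero] at h7
        refine h7.congr' ?_
        filter_upwards [eventually_gt_atTop 0] with n hn
        have : (n : ℝ) ≠ 0 := by exact_mod_cast hn.ne'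
        field_simp
      have h8 := h5.mul h6
      rw [zero_mul] at h8
      refine h8.congr' ?_
      filter_upwards [eventually_gt_atTop 0] with n hn
      have h9 : (n : ℝ) ≠ 0 := by exact_mod_cast hn.ne'
      have h10 : (n : ℝ) + 1 ≠ 0 := by positivity
      simp only [Function.comp]
      field_simp
    have h3 := (h2.const_mul (Nat.card S : ℝ)).add
      ((tendsto_one_div_atTop_nhds_zero_nat (𝕜 := ℝ)).const_mul
        (Real.log (Nat.card (commutator G))))
    rw [mul_zero, mul_zero, add_zero] at h3
    refine h3.congr ?_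
    intro n
    ring
  refine squeeze_zero' ?_ ?_ h1
  · exact Eventually.of_forall fun n =>
      div_nonneg (Real.log_natCast_nonneg _) (Nat.cast_nonneg n)
  · refine Eventually.of_forall fun n => ?_
    apply div_le_div_of_nonneg_right _ (Nat.cast_nonneg n)
    have hpos : 0 < Nat.card (commutator G) := Nat.card_pos
    have h2 := card_le_of_finite S hS hfin n
    rcases Nat.eq_zero_or_pos (Nat.card ↥(S ^ n)) with h0 | h0
    · rw [h0]
      simp only [Nat.cast_zero, Real.log_zero]
      have h3 : (0 : ℝ) ≤ Real.log ((n : ℝ) + 1) := Real.log_nonneg (by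
        have : (0 : ℝ) ≤ n := Nat.cast_nonneg n
        linarith)
      exact add_nonneg (mul_nonneg (Nat.cast_nonneg _) h3) (Real.log_natCast_nonneg _)
    · have h3 : Real.log (Nat.card ↥(S ^ n)) ≤
          Real.log (((n : ℝ) + 1) ^ (Nat.card S) * Nat.card (commutator G)) := by
        apply Real.log_le_log (by exact_mod_cast h0)
        exact_mod_cast h2
      rwa [Real.log_mul (by positivity) (by exact_mod_cast hpos.ne'), Real.log_pow] at h3

end Pool.Agent.H746UG
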