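import Pool.Agent.H746UG.Core

set_option autoImplicit false
set_option linter.unusedSectionVars false

namespace Pool.Agent.H746UG

open Subgroup
open scoped IsMulCommutative commutatorElement

variable {G : Type*} [Group G] (N : Subgroup G) [N.Normal] [hN : IsMulCommutative N]

/-- the action of `G ⧸ N` -/
noncomputable def thQ : (G ⧸ N) →* Module.End ℤ (Additive N) :=
  QuotientGroup.lift N (th N) (fun _ hg => th_of_mem hg)

lemma thQ_mk (g : G) : thQ N (QuotientGroup.mk g) = th N g := rfl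

/-- the action of the group ring of the centre of `G ⧸ N` -/
noncomputable def phi : MonoidAlgebra ℤ (center (G ⧸ N)) →+* Module.End ℤ (Additive N) :=
  (MonoidAlgebra.lift ℤ (Module.End ℤ (Additive N)) (center (G ⧸ N))
    ((thQ N).comp (center (G ⧸ N)).subtype)).toRingHom

lemma phi_of (z : center (G ⧸ N)) :
    phi N (MonoidAlgebra.of ℤ (center (G ⧸ N)) z) = thQ N (z : G ⧸ N) :=
  MonoidAlgebra.lift_of _ _

/-- the commutative ring through which the centre of `G ⧸ N` acts -/
abbrev RR : Type _ := MonoidAlgebra ℤ (center (G ⧸ N)) ⧸ RingHom.ker (phi N)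

noncomputable instance instModRR : Module (RR N) (Additive N) :=
  Module.compHom _ (RingHom.kerLift (phi N))

lemma RR_smul (r : MonoidAlgebra ℤ (center (G ⧸ N))) (a : Additive N) :
    (Ideal.Quotient.mk (RingHom.ker (phi N)) r : RR N) • a = phi N r a := rfl

/-- the image of a central element -/
noncomputable def qq : center (G ⧸ N) →* RR N :=
  (Ideal.Quotient.mk (RingHom.ker (phi N)) : _ →* RR N).comp
    (MonoidAlgebra.of ℤ (center (G ⧸ N)))

lemma qq_smul (g : G) (hg : (QuotientGroup.mk g : G ⧸ N) ∈ center (G ⧸ N)) (a : Additive N) :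
    qq N ⟨QuotientGroup.mk g, hg⟩ • a = th N g a := by
  show phi N (MonoidAlgebra.of ℤ (center (G ⧸ N)) ⟨QuotientGroup.mk g, hg⟩) a = _
  rw [phi_of]; rfl

lemma RR_induct {P : RR N → Prop} (hof : ∀ z, P (qq N z))
    (hadd : ∀ x y, P x → P y → P (x + y)) (hsmul : ∀ (n : ℤ) x, P x → P (n • x)) : ∀ r, P r := by
  intro r
  obtain ⟨r, rfl⟩ := Ideal.Quotient.mk_surjective r
  induction r using MonoidAlgebra.induction_on with
  | of z => exact hof z
  | add x y hx hy => rw [map_add]; exact hadd _ _ hx hy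
  | smul n x hx => rw [map_zsmul]; exact hsmul _ _ hx

section Domain

variable (hJN : ∀ r, phi N r = 0 ∨ Function.Injective (phi N r))
include hJN

lemma RR_inj (r : RR N) (hr : r ≠ 0) : Function.Injective (fun a : Additive N => r • a) := by
  obtain ⟨r, rfl⟩ := Ideal.Quotient.mk_surjective r
  rcases hJN r with h | h
  · exact absurd (Ideal.Quotient.eq_zero_iff_mem.mpr h) hr
  · exact h

lemma RR_domain [Nontrivial (Additive N)] : IsDomain (RR N) := by
  have h1 : Nontrivial (RR N) := by
    refine ⟨⟨0, 1, ?_⟩⟩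
    intro h
    obtain ⟨a, ha⟩ := exists_ne (0 : Additive N)
    apply ha
    rw [← one_smul (RR N) a, ← h, zero_smul]
  have h2 : NoZeroDivisors (RR N) := by
    refine ⟨?_⟩
    intro x y hxy
    by_contra hcon
    push Not at hcon
    obtain ⟨a, ha⟩ := exists_ne (0 : Additive N)
    have h3 := RR_inj N hJN x hcon.1
    have h4 := RR_inj N hJN y hcon.2
    apply ha
    apply h4
    apply h3
    show x • y • a = x • y • (0 : Additive N)
    rw [← mul_smul, hxy, zero_smul, smul_zero, smul_zero]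
  exact NoZeroDivisors.to_isDomain _

lemma RR_torsionFree : Module.IsTorsionFree (RR N) (Additive N) := by
  refine ⟨?_⟩
  intro r hr
  by_cases h0 : r = 0
  · subst h0
    intro a b _
    rcases subsingleton_or_nontrivial (RR N) with h | h
    · rw [← one_smul (RR N) a, ← one_smul (RR N) b, Subsingleton.elim (1 : RR N) 0, zero_smul,
        zero_smul]
    · exact absurd hr.1 (by
        intro h1
        exact zero_ne_one (h1 (show (0 : RR N) * 0 = 0 * 1 by simp)))
  · exact RR_inj N hJN r h0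

end Domain

lemma finite_commutatorSet (Q : Type*) [Group Q] [FiniteIndex (center Q)] :
    Finite (commutatorSet Q) := by
  have h : commutatorSet Q ⊆ Set.range (fun p : (Q ⧸ center Q) × (Q ⧸ center Q) =>
      ⁅p.1.out, p.2.out⁆) := by
    rintro _ ⟨a, b, rfl⟩
    refine ⟨(QuotientGroup.mk a, QuotientGroup.mk b), ?_⟩
    obtain ⟨z, hz⟩ := QuotientGroup.mk_out_eq_mul (center Q) a
    obtain ⟨w, hw⟩ := QuotientGroup.mk_out_eq_mul (center Q) b
    show ⁅(QuotientGroup.mk a : Q ⧸ center Q).out, (QuotientGroup.mk b : Q ⧸ center Q).out⁆ = _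
    rw [hz, hw, commutatorElement_def, commutatorElement_def]
    have cz : ∀ x, x * (z : Q) = z * x := fun x => mem_center_iff.mp z.2 x
    have cw : ∀ x, x * (w : Q) = w * x := fun x => mem_center_iff.mp w.2 x
    have cz' : ∀ x, x * (z : Q)⁻¹ = (z : Q)⁻¹ * x := fun x =>
      mem_center_iff.mp (inv_mem z.2) x
    have cw' : ∀ x, x * (w : Q)⁻¹ = (w : Q)⁻¹ * x := fun x =>
      mem_center_iff.mp (inv_mem w.2) x
    rw [cz a, cw b, mul_inv_rev, mul_inv_rev]
    calc (z : Q) * a * (w * b) * (a⁻¹ * (z : Q)⁻¹) * (b⁻¹ * (w : Q)⁻¹)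
        = (z : Q) * (a * w) * b * (a⁻¹ * (z : Q)⁻¹) * (b⁻¹ * (w : Q)⁻¹) := by group
      _ = (z : Q) * w * (a * b * a⁻¹) * (z : Q)⁻¹ * (b⁻¹ * (w : Q)⁻¹) := by rw [cw a]; group
      _ = (z : Q) * w * (z : Q)⁻¹ * (a * b * a⁻¹ * b⁻¹ * (w : Q)⁻¹) := by
          rw [mul_assoc ((z : Q) * w), cz' (a * b * a⁻¹)]; group
      _ = (z : Q) * w * (z : Q)⁻¹ * (w : Q)⁻¹ * (a * b * a⁻¹ * b⁻¹) := by
          rw [cw' (a * b * a⁻¹ * b⁻¹)]; group
      _ = a * b * a⁻¹ * b⁻¹ := by
          have : (z : Q) * w = w * z := cw z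
          rw [this]; group
  exact (Set.finite_range _).subset h

section Fin

variable [FiniteIndex (center (G ⧸ N))]

/-- the multiplier of the `m`-th power -/
noncomputable def lam : G →* RR N :=
  (qq N).comp ((MonoidHom.transferCenterPow (G ⧸ N)).comp (QuotientGroup.mk' N))

lemma lam_smul (g : G) (a : Additive N) :
    lam N g • a = th N (g ^ (center (G ⧸ N)).index) a := by
  have h : (QuotientGroup.mk (g ^ (center (G ⧸ N)).index) : G ⧸ N) =
      (MonoidHom.transferCenterPow (G ⧸ N) (QuotientGroup.mk g) : G ⧸ N) := by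
    rw [MonoidHom.transferCenterPow_apply]; rfl
  have h2 : (QuotientGroup.mk (g ^ (center (G ⧸ N)).index) : G ⧸ N) ∈ center (G ⧸ N) := by
    rw [h]; exact Subtype.property _
  rw [← qq_smul N _ h2 a]
  have h3 : lam N g = qq N ⟨_, h2⟩ := congrArg (qq N) (Subtype.ext h.symm)
  rw [h3]

lemma pow_central (g x : G) :
    g * x ^ (center (G ⧸ N)).index * g⁻¹ * (x ^ (center (G ⧸ N)).index)⁻¹ ∈ N := by
  rw [← QuotientGroup.eq_one_iff]
  have h : (QuotientGroup.mk (x ^ (center (G ⧸ N)).index) : G ⧸ N) =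
      (MonoidHom.transferCenterPow (G ⧸ N) (QuotientGroup.mk x) : G ⧸ N) := by
    rw [MonoidHom.transferCenterPow_apply]; rfl
  have h2 : (QuotientGroup.mk (x ^ (center (G ⧸ N)).index) : G ⧸ N) ∈ center (G ⧸ N) := by
    rw [h]; exact Subtype.property _
  have h3 := (mem_center_iff.mp h2) (QuotientGroup.mk g)
  rw [QuotientGroup.mk_mul, QuotientGroup.mk_mul, QuotientGroup.mk_mul, QuotientGroup.mk_inv,
    QuotientGroup.mk_inv, h3]
  group

lemma th_comm_finite : (th N '' (commutator G : Set G)).Finite := by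
  have h1 : Finite (commutator (G ⧸ N)) := by
    have : Finite (commutatorSet (G ⧸ N)) := finite_commutatorSet _
    infer_instance
  have h2 : (thQ N '' (commutator (G ⧸ N) : Set (G ⧸ N))).Finite :=
    (Set.toFinite _).image _
  refine h2.subset ?_
  rintro _ ⟨g, hg, rfl⟩
  refine ⟨QuotientGroup.mk g, ?_, rfl⟩
  have : (commutator G).map (QuotientGroup.mk' N) ≤ commutator (G ⧸ N) := by
    rw [commutator_def, commutator_def, Subgroup.map_commutator]
    exact Subgroup.commutator_mono le_top le_top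
  exact this ⟨g, hg, rfl⟩

end Fin

end Pool.Agent.H746UG
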