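import Pool.Agent.H746UG.Conj

set_option autoImplicit false
set_option linter.unusedSectionVars false

namespace Pool.Agent.H746UG

open Subgroup
open scoped IsMulCommutative

variable {G : Type*} [Group G] {N : Subgroup G} [N.Normal] [hN : IsMulCommutative N]

/-- the commutator of `g` with the element `c`, which is central modulo `N` -/
def Phi (c : G) (hc : ∀ g : G, g * c * g⁻¹ * c⁻¹ ∈ N) (g : G) : Additive N :=
  el N (g * c * g⁻¹ * c⁻¹) (hc g)

lemma Phi_mul (c : G) (hc : ∀ g : G, g * c * g⁻¹ * c⁻¹ ∈ N) (g h : G) :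
    Phi c hc (g * h) = Phi c hc g + th N g (Phi c hc h) := by
  rw [add_comm]
  apply val_inj
  rw [val_add, val_th]
  simp only [Phi, val_el]
  group

lemma Phi_comm (c : G) (hc : ∀ g : G, g * c * g⁻¹ * c⁻¹ ∈ N) {g : G} (h : g * c = c * g) :
    Phi c hc g = 0 := by
  apply val_inj
  simp only [Phi, val_el, val_zero]
  rw [h]; group

/-- the finite set of translates of `η` -/
def TT (X : G) (η : Additive N) (k : ℕ) : Set (Additive N) :=
  {a | ∃ i < k, ∃ g ∈ commutator G, a = th N (X ^ i * g) η}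

/-- the subgroup generated by `TT` -/
def HH (X : G) (η : Additive N) (k : ℕ) : Submodule ℤ (Additive N) :=
  Submodule.span ℤ (TT X η k)

lemma TT_finite (hfin : (th N '' (commutator G : Set G)).Finite) (X : G) (η : Additive N)
    (k : ℕ) : (TT X η k).Finite := by
  have h1 : ((Set.Iio k).prod (th N '' (commutator G : Set G))).Finite :=
    (Set.finite_Iio k).prod hfin
  refine (h1.image fun p => th N (X ^ p.1) (p.2 η)).subset ?_
  rintro a ⟨i, hi, g, hg, rfl⟩
  refine ⟨(i, th N g), ⟨hi, g, hg, rfl⟩, ?_⟩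
  simp [map_mul]

lemma HH_of (X : G) (η : Additive N) (k : ℕ) (P : Additive N → Additive N)
    (hadd : ∀ a b, P (a + b) = P a + P b) (l : ℕ)
    (h : ∀ i < k, ∀ g ∈ commutator G, P (th N (X ^ i * g) η) ∈ HH X η l) :
    ∀ a ∈ HH X η k, P a ∈ HH X η l := by
  let f : Additive N →+ Additive N := AddMonoidHom.mk' P hadd
  have : HH X η k ≤ (HH X η l).comap f.toIntLinearMap := by
    refine Submodule.span_le.mpr ?_
    rintro a ⟨i, hi, g, hg, rfl⟩
    exact h i hi g hg
  exact fun a ha => this ha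

lemma HH_comm (X : G) (η : Additive N) (k : ℕ) {f : G} (hf : f ∈ commutator G) :
    ∀ a ∈ HH X η k, th N f a ∈ HH X η k := by
  refine HH_of X η k _ (map_add _) k ?_
  intro i hi g hg
  apply Submodule.subset_span
  refine ⟨i, hi, (X ^ i)⁻¹ * f * X ^ i * g, ?_, ?_⟩
  · refine mul_mem ?_ hg
    have := (inferInstance : (commutator G).Normal).conj_mem f hf (X ^ i)⁻¹
    rwa [inv_inv] at this
  · rw [← th_mul_apply]; congr 2; group

lemma HH_letter (X : G) (η : Additive N) (k : ℕ) {l : G} (hl : X⁻¹ * l ∈ commutator G) :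
    ∀ a ∈ HH X η k, th N l a ∈ HH X η (k + 1) := by
  refine HH_of X η k _ (map_add _) (k + 1) ?_
  intro i hi g hg
  apply Submodule.subset_span
  refine ⟨i + 1, by omega, (X ^ i)⁻¹ * (X⁻¹ * l) * X ^ i * g, ?_, ?_⟩
  · refine mul_mem ?_ hg
    have := (inferInstance : (commutator G).Normal).conj_mem _ hl (X ^ i)⁻¹
    rwa [inv_inv] at this
  · rw [← th_mul_apply]; congr 2; rw [pow_succ']; group

lemma ev_coset (X Y : G) (hXY : X⁻¹ * Y ∈ commutator G) :
    ∀ w : List Bool, (X ^ w.length)⁻¹ * ev X Y w ∈ commutator G := by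
  intro w
  induction w with
  | nil => simp [ev, one_mem]
  | cons b w ih =>
    have hl : X⁻¹ * (if b then X else Y) ∈ commutator G := by
      cases b
      · simpa using hXY
      · simp [one_mem]
    have h2 := (inferInstance : (commutator G).Normal).conj_mem _ hl (X ^ w.length)⁻¹
    have h3 := mul_mem h2 ih
    rw [ev_cons, List.length_cons]
    convert h3 using 1
    rw [pow_succ']; group

section

variable (X Y : G) (m : ℕ) (hc : ∀ g : G, g * X ^ m * g⁻¹ * (X ^ m)⁻¹ ∈ N)

lemma Phi_X : Phi (X ^ m) hc X = 0 := by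
  apply Phi_comm
  exact (pow_succ' X m).symm.trans (pow_succ X m)

lemma eta_mem (k : ℕ) (hk : 0 < k) : Phi (X ^ m) hc Y ∈ HH X (Phi (X ^ m) hc Y) k := by
  apply Submodule.subset_span
  exact ⟨0, hk, 1, one_mem _, by simp⟩

lemma Phi_mem (hXY : X⁻¹ * Y ∈ commutator G) (w : List Bool) :
    Phi (X ^ m) hc (ev X Y w) ∈ HH X (Phi (X ^ m) hc Y) w.length := by
  induction w with
  | nil =>
    have h1 : Phi (X ^ m) hc 1 = 0 := Phi_comm (X ^ m) hc (g := 1) (by rw [one_mul, mul_one])
    rw [ev_nil, h1]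
    exact zero_mem _
  | cons b w ih =>
    rw [ev_cons, Phi_mul, List.length_cons]
    refine add_mem ?_ ?_
    · cases b
      · simpa using eta_mem X Y m hc _ (Nat.succ_pos _)
      · simp only [if_true]
        rw [Phi_X]; exact zero_mem _
    · refine HH_letter X _ _ ?_ _ ih
      cases b
      · simpa using hXY
      · simp [one_mem]

lemma stab_first (hXY : X⁻¹ * Y ∈ commutator G) (u v : List Bool) (hl : u.length = v.length)
    (he : X * ev X Y u = Y * ev X Y v) :
    ∀ a ∈ HH X (Phi (X ^ m) hc Y) u.length, th N X⁻¹ a ∈ HH X (Phi (X ^ m) hc Y) u.length := by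
  set η := Phi (X ^ m) hc Y with hη
  have h1 : th N X (Phi (X ^ m) hc (ev X Y u)) = η + th N Y (Phi (X ^ m) hc (ev X Y v)) := by
    have := congrArg (Phi (X ^ m) hc) he
    rw [Phi_mul, Phi_mul, Phi_X, zero_add] at this
    exact this
  have h2 : th N X⁻¹ η = Phi (X ^ m) hc (ev X Y u) -
      th N (X⁻¹ * Y) (Phi (X ^ m) hc (ev X Y v)) := by
    have h3 : η = th N X (Phi (X ^ m) hc (ev X Y u)) - th N Y (Phi (X ^ m) hc (ev X Y v)) := by
      rw [h1]; abel
    rw [h3, map_sub, th_inv_apply, th_mul_apply]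
  have h3 : th N X⁻¹ η ∈ HH X η u.length := by
    rw [h2]
    refine sub_mem (Phi_mem X Y m hc hXY u) (HH_comm X η _ hXY _ ?_)
    rw [hl]; exact Phi_mem X Y m hc hXY v
  refine HH_of X η _ _ (map_add _) _ ?_
  intro i hi g hg
  rcases Nat.eq_zero_or_pos i with rfl | hi0
  · rw [pow_zero, one_mul]
    have : th N X⁻¹ (th N g η) = th N (X⁻¹ * g * X) (th N X⁻¹ η) := by
      rw [← th_mul_apply, ← th_mul_apply]; congr 2; group
    rw [this]
    refine HH_comm X η _ ?_ _ h3
    have := (inferInstance : (commutator G).Normal).conj_mem g hg X⁻¹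
    rwa [inv_inv] at this
  · apply Submodule.subset_span
    refine ⟨i - 1, by omega, g, hg, ?_⟩
    rw [← th_mul_apply]; congr 2
    obtain ⟨j, rfl⟩ : ∃ j, i = j + 1 := ⟨i - 1, by omega⟩
    rw [Nat.add_sub_cancel, pow_succ']; group

lemma stab_last (hXY : X⁻¹ * Y ∈ commutator G) (u v : List Bool) (hl : u.length = v.length)
    (he : ev X Y u * X = ev X Y v * Y) :
    ∀ a ∈ HH X (Phi (X ^ m) hc Y) u.length, th N X a ∈ HH X (Phi (X ^ m) hc Y) u.length := by
  set η := Phi (X ^ m) hc Y with hη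
  have h1 : Phi (X ^ m) hc (ev X Y u) = Phi (X ^ m) hc (ev X Y v) + th N (ev X Y v) η := by
    have := congrArg (Phi (X ^ m) hc) he
    rw [Phi_mul, Phi_mul, Phi_X, map_zero, add_zero] at this
    exact this
  have h2 : th N (ev X Y v) η ∈ HH X η u.length := by
    have h3 : th N (ev X Y v) η = Phi (X ^ m) hc (ev X Y u) - Phi (X ^ m) hc (ev X Y v) := by
      rw [h1]; abel
    rw [h3]
    refine sub_mem (Phi_mem X Y m hc hXY u) ?_
    rw [hl]; exact Phi_mem X Y m hc hXY v
  have h4 : (X ^ u.length)⁻¹ * ev X Y v ∈ commutator G := by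
    rw [hl]; exact ev_coset X Y hXY v
  refine HH_of X η _ _ (map_add _) _ ?_
  intro i hi g hg
  by_cases hik : i + 1 < u.length
  · apply Submodule.subset_span
    refine ⟨i + 1, hik, g, hg, ?_⟩
    rw [← th_mul_apply]; congr 2
    rw [pow_succ']; group
  · have hik' : i + 1 = u.length := by omega
    have : th N X (th N (X ^ i * g) η) =
        th N (X * X ^ i * g * (ev X Y v)⁻¹) (th N (ev X Y v) η) := by
      rw [← th_mul_apply, ← th_mul_apply]; congr 2; group
    rw [this]
    refine HH_comm X η _ ?_ _ h2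
    have h5 := (inferInstance : (commutator G).Normal).conj_mem _
      (mul_mem hg (inv_mem h4)) (X ^ u.length)
    convert h5 using 1
    rw [← hik', pow_succ']; group

end

end Pool.Agent.H746UG
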