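import Pool.Agent.H746UG.Met

set_option autoImplicit false
set_option linter.unusedSectionVars false

namespace Pool.Agent.H746UG

open Subgroup
open scoped IsMulCommutative commutatorElement

variable {G : Type*} [Group G] (N : Subgroup G) [N.Normal] [hN : IsMulCommutative N]

lemma nil_chain {R M : Type*} [CommRing R] [AddCommGroup M] [Module R M] (J : Ideal R)
    (hJ : IsNilpotent J) : ∃ K : ℕ, ∃ F : ℕ → Submodule R M, F 0 = ⊤ ∧
      (∀ n, ∀ r ∈ J, ∀ a ∈ F n, r • a ∈ F (n + 1)) ∧ F K = ⊥ := by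
  obtain ⟨K, hK⟩ := hJ
  refine ⟨K, fun n => J ^ n • (⊤ : Submodule R M), ?_, ?_, ?_⟩
  · show J ^ 0 • (⊤ : Submodule R M) = ⊤
    rw [pow_zero, Ideal.one_eq_top, Submodule.top_smul]
  · intro n r hr a ha
    show r • a ∈ J ^ (n + 1) • (⊤ : Submodule R M)
    rw [pow_succ', ← smul_eq_mul, Submodule.smul_assoc]
    exact Submodule.smul_mem_smul hr ha
  · show J ^ K • (⊤ : Submodule R M) = ⊥
    rw [hK, Submodule.zero_eq_bot, Submodule.bot_smul]

lemma RR_faithful (r : RR N) (h : ∀ a : Additive N, r • a = 0) : r = 0 := by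
  obtain ⟨r, rfl⟩ := Ideal.Quotient.mk_surjective r
  apply Ideal.Quotient.eq_zero_iff_mem.mpr
  rw [RingHom.mem_ker]
  apply LinearMap.ext
  intro a
  exact h a

variable (hQ : ∀ g h : G, g * h * g⁻¹ * h⁻¹ ∈ N)

include hQ in
lemma comm_le : commutator G ≤ N := by
  rw [commutator_def, Subgroup.commutator_le]
  intro g _ h _
  rw [commutatorElement_def]; exact hQ g h

theorem vn_of_VU (S : Set G) (hS : S.Finite) (hgen : Subgroup.closure S = ⊤)
    (h : VU N hQ ⊥) : Group.IsVirtuallyNilpotent G := by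
  classical
  have hGfg : Group.FG G := ⟨⟨hS.toFinset, by rw [Set.Finite.coe_toFinset]; exact hgen⟩⟩
  have h' : ∀ g, ∃ m > 0, ∃ k, (qg N hQ g ^ m - 1) ^ k = 0 := by
    intro g
    obtain ⟨m, hm, k, hk⟩ := h g
    exact ⟨m, hm, k, RR_faithful N _ (fun a => (Submodule.mem_bot _).mp (hk a))⟩
  choose mm hmm kk hkk using h'
  set M0 := ∏ s ∈ hS.toFinset, mm s with hM0
  have hM0pos : 0 < M0 := Finset.prod_pos fun s _ => hmm s
  have hnil : ∀ s ∈ S, IsNilpotent (qg N hQ s ^ M0 - 1) := by
    intro s hs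
    obtain ⟨d, hd⟩ : mm s ∣ M0 := Finset.dvd_prod_of_mem _ (hS.mem_toFinset.mpr hs)
    obtain ⟨c, hc⟩ : (qg N hQ s ^ mm s - 1) ∣ (qg N hQ s ^ M0 - 1) := by
      rw [hd, pow_mul]
      simpa using sub_dvd_pow_sub_pow (qg N hQ s ^ mm s) 1 d
    refine ⟨kk s, ?_⟩
    rw [hc, mul_pow, hkk s, zero_mul]
  let J : Ideal (RR N) := Ideal.span ((fun s => qg N hQ s ^ M0 - 1) '' S)
  have hJfg : J.FG := Submodule.fg_span (hS.image _)
  have hJnil : IsNilpotent J := by
    rw [Ideal.FG.isNilpotent_iff_le_nilradical hJfg, Ideal.span_le]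
    rintro _ ⟨s, hs, rfl⟩
    exact mem_nilradical.mpr (hnil s hs)
  obtain ⟨K, F, hF0, hFs, hFK⟩ := nil_chain (M := Additive N) J hJnil
  -- the subgroup
  let H : Subgroup G :=
    { carrier := {g | qg N hQ g - 1 ∈ J}
      mul_mem' := by
        intro g h hg hh
        show qg N hQ (g * h) - 1 ∈ J
        have : qg N hQ (g * h) - 1 = qg N hQ g * (qg N hQ h - 1) + (qg N hQ g - 1) := by
          rw [map_mul]; ring
        rw [this]
        exact J.add_mem (J.mul_mem_left _ hh) hg
      one_mem' := by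
        show qg N hQ 1 - 1 ∈ J
        rw [map_one, sub_self]; exact J.zero_mem
      inv_mem' := by
        intro g hg
        show qg N hQ g⁻¹ - 1 ∈ J
        have h1 : qg N hQ g⁻¹ * qg N hQ g = 1 := by
          rw [← map_mul, inv_mul_cancel, map_one]
        have : qg N hQ g⁻¹ - 1 = -(qg N hQ g⁻¹ * (qg N hQ g - 1)) := by
          rw [mul_sub, h1]; ring
        rw [this]
        exact J.neg_mem (J.mul_mem_left _ hg) }
  have hNH : N ≤ H := by
    intro g hg
    show qg N hQ g - 1 ∈ J
    have : qg N hQ g - 1 = 0 := by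
      apply RR_faithful
      intro a
      rw [sub_smul, qg_smul, one_smul, th_of_mem hg]
      exact sub_self a
    rw [this]; exact J.zero_mem
  have hHn : H.Normal := Subgroup.Normal.of_commutator_le G ((comm_le N hQ).trans hNH)
  have hpow : ∀ g, g ^ M0 ∈ H := by
    let V : Subgroup G :=
      { carrier := {g | g ^ M0 ∈ H}
        mul_mem' := by
          intro g h hg hh
          show qg N hQ ((g * h) ^ M0) - 1 ∈ J
          have : qg N hQ ((g * h) ^ M0) = qg N hQ (g ^ M0 * h ^ M0) := by
            rw [map_pow, map_mul, map_mul, map_pow, map_pow, mul_pow]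
          rw [this]
          exact H.mul_mem hg hh
        one_mem' := by
          show (1 : G) ^ M0 ∈ H
          rw [one_pow]; exact H.one_mem
        inv_mem' := by
          intro g hg
          show g⁻¹ ^ M0 ∈ H
          rw [inv_pow]; exact H.inv_mem hg }
    have hV : (⊤ : Subgroup G) ≤ V := by
      rw [← hgen, Subgroup.closure_le]
      intro s hs
      show qg N hQ (s ^ M0) - 1 ∈ J
      rw [map_pow]
      exact Ideal.subset_span ⟨s, hs, rfl⟩
    exact fun g => hV (mem_top g)
  have hfi : H.FiniteIndex := by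
    let inst : CommGroup (G ⧸ H) :=
      { (inferInstance : Group (G ⧸ H)) with
        mul_comm := by
          intro a b
          obtain ⟨a, rfl⟩ := QuotientGroup.mk_surjective a
          obtain ⟨b, rfl⟩ := QuotientGroup.mk_surjective b
          have h1 := (QuotientGroup.eq_one_iff _).mpr (hNH (hQ a b))
          rw [QuotientGroup.mk_mul, QuotientGroup.mk_mul, QuotientGroup.mk_mul,
            QuotientGroup.mk_inv, QuotientGroup.mk_inv] at h1
          have h2 := mul_inv_eq_one.mp h1
          rwa [mul_inv_eq_iff_eq_mul] at h2 }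
    have h1 : Finite (G ⧸ H) := by
      apply CommGroup.finite_of_fg_isMulTorsion
      intro x
      obtain ⟨x, rfl⟩ := QuotientGroup.mk_surjective x
      rw [isOfFinOrder_iff_pow_eq_one]
      exact ⟨M0, hM0pos, (QuotientGroup.eq_one_iff _).mpr (hpow x)⟩
    exact Subgroup.finiteIndex_of_finite_quotient
  -- the descending central series of `H`
  let NN : ℕ → Subgroup G := fun j =>
    { carrier := {x | ∃ a ∈ F j, val N a = x}
      mul_mem' := by
        rintro x y ⟨a, ha, rfl⟩ ⟨b, hb, rfl⟩
        exact ⟨a + b, Submodule.add_mem _ ha hb, val_add a b⟩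
      one_mem' := ⟨0, Submodule.zero_mem _, val_zero⟩
      inv_mem' := by
        rintro x ⟨a, ha, rfl⟩
        exact ⟨-a, Submodule.neg_mem _ ha, val_neg a⟩ }
  let D : ℕ → Subgroup H := fun j => Nat.casesOn j ⊤ (fun j => (NN j).subgroupOf H)
  have hnilp : Group.IsNilpotent H := by
    rw [Subgroup.nilpotent_iff_finite_descending_central_series]
    refine ⟨K + 1, D, ⟨rfl, ?_⟩, ?_⟩
    · intro x n hx g
      cases n with
      | zero =>
        show (x : G) * g * (x : G)⁻¹ * (g : G)⁻¹ ∈ NN 0
        refine ⟨el N _ (hQ x g), ?_, rfl⟩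
        show el N _ (hQ x g) ∈ F 0
        rw [hF0]; exact Submodule.mem_top
      | succ n =>
        obtain ⟨a, ha, hax⟩ := (show (x : G) ∈ NN n from hx)
        show (x : G) * g * (x : G)⁻¹ * (g : G)⁻¹ ∈ NN (n + 1)
        refine ⟨-((qg N hQ g - 1) • a), ?_, ?_⟩
        · exact Submodule.neg_mem _ (hFs n _ g.2 a ha)
        · have : -((qg N hQ g - 1) • a) = a - th N g a := by
            rw [sub_smul, qg_smul, one_smul]; abel
          rw [this, val_sub, val_th, hax]
          group
    · show (NN K).subgroupOf H = ⊥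
      rw [eq_bot_iff]
      intro x hx
      obtain ⟨a, ha, hax⟩ := (show (x : G) ∈ NN K from hx)
      rw [hFK, Submodule.mem_bot] at ha
      rw [ha, val_zero] at hax
      rw [mem_bot]
      exact Subtype.ext hax.symm
  exact ⟨H, hnilp, hfi⟩

end Pool.Agent.H746UG
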