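import Mathlib

set_option autoImplicit false

namespace Pool.Agent.H746UG

open scoped Pointwise

variable {G : Type*} [Group G]

/-- value of a word in the two letters `X`, `Y` -/
def ev (X Y : G) (w : List Bool) : G := (w.map fun b => if b then X else Y).prod

lemma ev_nil (X Y : G) : ev X Y [] = 1 := rfl

lemma ev_cons (X Y : G) (b : Bool) (w : List Bool) :
    ev X Y (b :: w) = (if b then X else Y) * ev X Y w := by simp [ev]

lemma ev_append (X Y : G) (u v : List Bool) : ev X Y (u ++ v) = ev X Y u * ev X Y v := by
  simp [ev]

/-- `X`, `Y` are a free basis of a free semigroup (indeed of a free monoid) -/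
def FreePair (X Y : G) : Prop := ∀ u v : List Bool, ev X Y u = ev X Y v → u = v

lemma freePair_of_eq_length {X Y : G}
    (h : ∀ u v : List Bool, u.length = v.length → ev X Y u = ev X Y v → u = v) :
    FreePair X Y := by
  intro u v huv
  have key : ∀ b : Bool, u ++ [b] ++ v = v ++ [b] ++ u := by
    intro b
    apply h
    · simp; omega
    · rw [ev_append, ev_append, ev_append, ev_append, huv]
  rcases lt_trichotomy u.length v.length with hl | hl | hl
  · have h1 := congrArg (fun l => l[u.length]?) (key true)
    have h2 := congrArg (fun l => l[u.length]?) (key false)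
    simp [List.getElem?_append, hl] at h1 h2
    rw [h1] at h2
    simp at h2
  · exact h u v hl huv
  · have h1 := congrArg (fun l => l[v.length]?) (key true)
    have h2 := congrArg (fun l => l[v.length]?) (key false)
    simp [List.getElem?_append, hl] at h1 h2
    rw [h1] at h2
    simp at h2

lemma first_diff (X Y : G) : ∀ u v : List Bool, u.length = v.length → u ≠ v →
    ev X Y u = ev X Y v →
    ∃ u' v' : List Bool, u'.length = v'.length ∧ X * ev X Y u' = Y * ev X Y v' := by
  intro u
  induction u with
  | nil =>
    intro v hl hne _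
    exact absurd (List.length_eq_zero_iff.mp hl.symm).symm hne
  | cons a u ih =>
    intro v hl hne he
    cases v with
    | nil => simp at hl
    | cons b v =>
      simp only [List.length_cons, Nat.add_right_cancel_iff] at hl
      rw [ev_cons, ev_cons] at he
      by_cases hab : a = b
      · subst hab
        apply ih v hl
        · intro h; exact hne (by rw [h])
        · exact mul_left_cancel he
      · cases a <;> cases b <;> simp at hab he
        · exact ⟨v, u, hl.symm, he.symm⟩
        · exact ⟨u, v, hl, he⟩

lemma last_diff (X Y : G) : ∀ n : ℕ, ∀ u v : List Bool, u.length = n → v.length = n → u ≠ v →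
    ev X Y u = ev X Y v →
    ∃ u' v' : List Bool, u'.length = v'.length ∧ ev X Y u' * X = ev X Y v' * Y := by
  intro n
  induction n with
  | zero =>
    intro u v hu hv hne _
    rw [List.length_eq_zero_iff] at hu hv
    exact absurd (hu.trans hv.symm) hne
  | succ n ih =>
    intro u v hu hv hne he
    rcases List.eq_nil_or_concat u with rfl | ⟨u', a, rfl⟩
    · simp at hu
    rcases List.eq_nil_or_concat v with rfl | ⟨v', b, rfl⟩
    · simp at hv
    simp at hu hv
    simp only [List.concat_eq_append] at he hne
    rw [ev_append, ev_append] at he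
    by_cases hab : a = b
    · subst hab
      apply ih u' v' hu hv
      · intro h; exact hne (by rw [h])
      · exact mul_right_cancel he
    · have e1 : ∀ b : Bool, ev X Y [b] = if b then X else Y := by
        intro b; simp [ev]
      rw [e1, e1] at he
      cases a <;> cases b <;> simp at hab he
      · exact ⟨v', u', by omega, he.symm⟩
      · exact ⟨u', v', by omega, he⟩

/-- words in `X, Y ∈ S ^ j` of length `n` lie in `S ^ (j n)` -/
lemma ev_mem (S : Set G) (j : ℕ) {X Y : G} (hX : X ∈ S ^ j) (hY : Y ∈ S ^ j) :
    ∀ w : List Bool, ev X Y w ∈ S ^ (j * w.length) := by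
  intro w
  induction w with
  | nil => simp [ev]
  | cons b w ih =>
    rw [ev_cons, List.length_cons, Nat.mul_succ, Nat.add_comm, pow_add]
    refine Set.mul_mem_mul ?_ ih
    cases b
    · simpa using hY
    · simpa using hX

lemma finite_pow (S : Set G) (hS : S.Finite) (n : ℕ) : (S ^ n).Finite := by
  induction n with
  | zero => simp
  | succ n ih => rw [pow_succ]; exact ih.mul hS

lemma card_pow_add (S : Set G) (m n : ℕ) :
    Nat.card ↥(S ^ (m + n)) ≤ Nat.card ↥(S ^ m) * Nat.card ↥(S ^ n) := by
  rw [pow_add]
  exact Set.natCard_mul_le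

lemma card_pow_mul (S : Set G) (j n : ℕ) :
    Nat.card ↥(S ^ (j * n)) ≤ Nat.card ↥(S ^ n) ^ j := by
  induction j with
  | zero => simp
  | succ j ih =>
    rw [Nat.succ_mul, pow_succ]
    exact (card_pow_add S _ _).trans (Nat.mul_le_mul_right _ ih)

/-- growth from a free pair -/
lemma growth_of_freePair (S : Set G) (hS : S.Finite) (j : ℕ) {X Y : G} (hX : X ∈ S ^ j)
    (hY : Y ∈ S ^ j) (h : FreePair X Y) (n : ℕ) : 2 ^ n ≤ Nat.card ↥(S ^ n) ^ j := by
  refine le_trans ?_ (card_pow_mul S j n)
  have : Finite ↥(S ^ (j * n)) := finite_pow S hS _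
  let f : List.Vector Bool n → ↥(S ^ (j * n)) := fun w =>
    ⟨ev X Y w.1, by have := ev_mem S j hX hY w.1; rwa [w.2] at this⟩
  have hf : Function.Injective f := by
    intro a b hab
    apply Subtype.ext
    exact h _ _ (congrArg Subtype.val hab)
  have := Nat.card_le_card_of_injective f hf
  simpa using this

end Pool.Agent.H746UG
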